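import Pool.Agent.Helper33_LAT.Wrd

/-!
# Squad LAT: the final theorems, with the rows as hypotheses
-/

set_option autoImplicit false

namespace Pool.Agent.LAT.H33

open Pool.Agent.PAR Matrix

noncomputable section

/-- A language which can be reduced to the shortest vector problem with factor `sqrt n`: the
reduction `f` is computable in polynomial time, its values are codes of instances, positive ones
for the words of the language and negative ones for the other words. -/
def Reduces (L : Set Word) : Prop :=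
  ∃ f : Word → Word, PolyWord f ∧ ∀ x, ∃ (n m w : ℕ) (A : Matrix (Fin n) (Fin m) ℤ) (D : ℤ),
    IsInst n m w A D ∧ f x = enc n m w A D ∧ (x ∈ L → Short A D) ∧ (x ∉ L → ¬ Short A (n * D))

theorem bound_q {s m k : ℕ} (hm : m ≤ s) (hk : k ≤ (s + 2) ^ 10) :
    k * ((3 * m + 1) * m) * ((s + 2) ^ 8 + 1) ≤ (s + 2) ^ 22 := by
  have h1 : 3 * m + 1 ≤ (s + 2) ^ 2 := by nlinarith
  have h2 : (s + 2) ^ 8 + 1 ≤ (s + 2) ^ 9 := by
    have h3 : 1 ≤ (s + 2) ^ 8 := Nat.one_le_pow _ _ (by omega)
    have h4 : (s + 2) ^ 9 = (s + 2) ^ 8 * (s + 2) := pow_succ _ _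
    nlinarith
  calc k * ((3 * m + 1) * m) * ((s + 2) ^ 8 + 1)
      ≤ (s + 2) ^ 10 * ((s + 2) ^ 2 * (s + 2)) * (s + 2) ^ 9 :=
        Nat.mul_le_mul (Nat.mul_le_mul hk (Nat.mul_le_mul h1 (by omega))) h2
    _ = (s + 2) ^ 22 := by ring

theorem len_enc_ge {n m w : ℕ} {s : ℕ} (h : s = n + m + w + 3 + (n * m + 1) * (w + 1)) :
    m ≤ s ∧ w ≤ s := by
  omega

/-- the number of witnesses -/
theorem gap (wdc : WdcStmt) (prs : PrsStmt) (fnm : FnmStmt) (n m w : ℕ)
    (A : Matrix (Fin n) (Fin m) ℤ) (D : ℤ) (hI : IsInst n m w A D) :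
    (Short A D → Odd (witnesses Vb ((Polynomial.X + 2) ^ 22) (enc n m w A D)).ncard) ∧
    (¬ Short A (n * D) → witnesses Vb ((Polynomial.X + 2) ^ 22) (enc n m w A D) = ∅) := by
  obtain ⟨h1, h2, h3, h4, h5, h6⟩ := prs n m w A D hI
  generalize hx : enc n m w A D = x at *
  obtain ⟨d, rfl⟩ := Int.eq_ofNat_of_zero_le hI.nonneg
  obtain ⟨g1, g2⟩ := len_enc_ge h6
  have hd : d < 2 ^ w := by exact_mod_cast hI.bound
  have hw : 2 ^ w ≤ 2 ^ x.length := Nat.pow_le_pow_right (by norm_num) g2
  have F : FinM n m x.length d A := by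
    refine fnm n m x.length d A hI.indep g1 (lt_of_lt_of_le hd hw) fun i j => ?_
    refine lt_of_lt_of_le (hI.entries i j) ?_
    exact_mod_cast hw
  have hq : ∀ l ∈ chL (rows A) d, (wrd (wid x) A d l).length ≤
      ((Polynomial.X + 2) ^ 22 : Polynomial ℕ).eval x.length := by
    intro l hl
    unfold wrd
    rw [(wdc _ _).1]
    have h7 := bound_q g1 (F.len l hl)
    simp only [Polynomial.eval_pow, Polynomial.eval_add, Polynomial.eval_X,
      Polynomial.eval_ofNat]
    exact h7
  have e := wit_eq wdc F h1 h2 h5 h4 _ hq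
  rw [e, Set.InjOn.ncard_image (wrd_inj wdc F h2)]
  constructor
  · rintro ⟨c, hc, hc2⟩
    exact F.yes ⟨c, hc, hc2⟩
  · intro h
    have h8 : chL (rows A) d = ∅ := by
      refine F.no fun c hc => ?_
      by_contra h9
      exact h ⟨c, hc, not_lt.1 h9⟩
    rw [h8, Set.image_empty]

/-- **GapSVP with factor `sqrt n`**: a predicate decidable in polynomial time such that the number
of the witnesses is odd for the positive instances and zero for the negative instances. -/
theorem promise (wdc : WdcStmt) (prs : PrsStmt) (fnm : FnmStmt) (mch : MchStmt) :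
    ∃ (V : Word × Word → Bool) (q : Polynomial ℕ), PolyPair V ∧
      ∀ (n m w : ℕ) (A : Matrix (Fin n) (Fin m) ℤ) (D : ℤ), IsInst n m w A D →
        (Short A D → Odd (witnesses V q (enc n m w A D)).ncard) ∧
        (¬ Short A (n * D) → witnesses V q (enc n m w A D) = ∅) :=
  ⟨Vb, (Polynomial.X + 2) ^ 22, mch, fun n m w A D hI => gap wdc prs fnm n m w A D hI⟩

/-- **Languages which can be reduced to GapSVP with factor `sqrt n` are in parity-P.** -/
theorem reduces (wdc : WdcStmt) (prs : PrsStmt) (fnm : FnmStmt) (mch : MchStmt) (red : RedStmt)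
    (L : Set Word) (h : Reduces L) : InParityP L := by
  obtain ⟨V, q, hV, hVq⟩ := promise wdc prs fnm mch
  obtain ⟨f, hf, hfx⟩ := h
  refine red L {x | Odd (witnesses V q x).ncard} f hf ⟨V, q, hV, fun x => Iff.rfl⟩ fun x => ?_
  obtain ⟨n, m, w, A, D, hI, e, h1, h2⟩ := hfx x
  obtain ⟨g1, g2⟩ := hVq n m w A D hI
  rw [e]
  constructor
  · intro hx
    exact g1 (h1 hx)
  · intro hx
    by_contra hx'
    have h3 := g2 (h2 hx')
    rw [Set.mem_ofPred_eq, h3, Set.ncard_empty] at hx
    exact absurd hx (by decide)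

end

end Pool.Agent.LAT.H33
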