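import Pool.Agent.Helper33_LAT.CWrd
import Pool.Agent.Helper96_LAT.PRS

/-!
# Squad LAT, part 2: the final theorems, with the rows as hypotheses
-/

set_option autoImplicit false

namespace Pool.Agent.LAT.H33

open Pool.Agent.PAR Matrix

noncomputable section

/-- Reading of the code of a matrix and a number (no condition of linear independence). -/
theorem prsG (hWda : WdaStmt) (n m w : ℕ) (A : Matrix (Fin n) (Fin m) ℤ) (D : ℤ)
    (hA : ∀ i j, |A i j| < 2 ^ w) (hD0 : 0 ≤ D) (hD : D < 2 ^ w) :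
    pn (enc n m w A D) = n ∧ pm (enc n m w A D) = m ∧ pw (enc n m w A D) = w ∧
    (∀ (i : Fin n) (j : Fin m), pa (enc n m w A D) i j = A i j) ∧ pD (enc n m w A D) = D ∧
    (enc n m w A D).length = n + m + w + 3 + (n * m + 1) * (w + 1) := by
  set row : Fin n → Word := fun i => (List.ofFn fun j => bits (w + 1) (A i j)).flatten with hrow
  have hrl : ∀ i, (row i).length = m * (w + 1) := fun i =>
    H96.flat_length m _ (w + 1) (fun j => H96.bits_length _ _)
  set E : Word := (List.ofFn row).flatten with hE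
  have hEl : E.length = n * (m * (w + 1)) := H96.flat_length n row _ hrl
  have henc : enc n m w A D = List.replicate n true ++ false :: (List.replicate m true ++ false ::
      (List.replicate w true ++ false :: (E ++ bits (w + 1) D))) := rfl
  have hpn : pn (enc n m w A D) = n := by
    unfold pn; rw [henc, H96.lead_rep]
  have hx1 : x1 (enc n m w A D) = List.replicate m true ++ false ::
      (List.replicate w true ++ false :: (E ++ bits (w + 1) D)) := by
    unfold x1; rw [hpn, henc, H96.drop_rep]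
  have hpm : pm (enc n m w A D) = m := by
    unfold pm; rw [hx1, H96.lead_rep]
  have hx2 : x2 (enc n m w A D) = List.replicate w true ++ false :: (E ++ bits (w + 1) D) := by
    unfold x2; rw [hpm, hx1, H96.drop_rep]
  have hpw : pw (enc n m w A D) = w := by
    unfold pw; rw [hx2, H96.lead_rep]
  have hx3 : x3 (enc n m w A D) = E ++ bits (w + 1) D := by
    unfold x3; rw [hpw, hx2, H96.drop_rep]
  refine ⟨hpn, hpm, hpw, ?_, ?_, ?_⟩
  · intro i j
    unfold pa
    rw [hx3, hpm, hpw]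
    obtain ⟨r, hr⟩ := H96.flat_drop n row (m * (w + 1)) hrl i (bits (w + 1) D)
    obtain ⟨r', hr'⟩ := H96.flat_drop m (fun j => bits (w + 1) (A i j)) (w + 1)
      (fun j => H96.bits_length _ _) j r
    have e : (i.1 * m + j.1) * (w + 1) = i.1 * (m * (w + 1)) + j.1 * (w + 1) := by ring
    have key : (E ++ bits (w + 1) D).drop ((i.1 * m + j.1) * (w + 1)) =
        bits (w + 1) (A i j) ++ r' := by
      rw [e, ← List.drop_drop, hE, hr, hr']
    rw [H96.num_of_drop (H96.bits_length _ _) key]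
    have hb := abs_lt.mp (hA i j)
    exact hWda w _ hb.1.le hb.2
  · unfold pD
    rw [hx3, hpn, hpm, hpw]
    have key : (E ++ bits (w + 1) D).drop (n * m * (w + 1)) = bits (w + 1) D ++ [] := by
      have e : n * m * (w + 1) = E.length := by rw [hEl]; ring
      rw [e, List.drop_left, List.append_nil]
    rw [H96.num_of_drop (H96.bits_length _ _) key]
    exact hWda w _ (le_trans (by simp) hD0) hD
  · rw [henc]
    simp only [List.length_append, List.length_cons, List.length_replicate, hEl, H96.bits_length]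
    ring

theorem addRow_lt {n m w : ℕ} {A : Matrix (Fin n) (Fin m) ℤ} {v : Fin m → ℤ}
    (hA : ∀ i j, |A i j| < 2 ^ w) (hv : ∀ j, |v j| < 2 ^ w) (i : Fin (n + 1)) (j : Fin m) :
    |addRow A v i j| < 2 ^ w := by
  unfold addRow
  simp only [Matrix.of_apply]
  split_ifs
  · exact hA _ _
  · exact hv _

theorem addRow_lo {n m : ℕ} (A : Matrix (Fin n) (Fin m) ℤ) (v : Fin m → ℤ) (i : Fin n)
    (j : Fin m) : addRow A v i.castSucc j = A i j := by
  unfold addRow
  simp only [Matrix.of_apply, Fin.val_castSucc]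
  rw [dif_pos i.2]

theorem addRow_hi {n m : ℕ} (A : Matrix (Fin n) (Fin m) ℤ) (v : Fin m → ℤ) (j : Fin m) :
    addRow A v (Fin.last n) j = v j := by
  unfold addRow
  simp only [Matrix.of_apply, Fin.val_last]
  rw [dif_neg (lt_irrefl _)]

theorem bound_qC {s m k : ℕ} (hm : m ≤ s) (hk : k ≤ (s + 2) ^ 10) :
    (k * (3 * m + 1) + 4) * m * ((s + 2) ^ 8 + 1) ≤ (s + 2) ^ 24 := by
  have h1 : 3 * m + 1 ≤ (s + 2) ^ 2 := by nlinarith
  have h2 : (s + 2) ^ 8 + 1 ≤ (s + 2) ^ 9 := by
    have h3 : 1 ≤ (s + 2) ^ 8 := Nat.one_le_pow _ _ (by omega)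
    have h4 : (s + 2) ^ 9 = (s + 2) ^ 8 * (s + 2) := pow_succ _ _
    nlinarith
  have h5 : k * (3 * m + 1) ≤ (s + 2) ^ 12 := by
    calc k * (3 * m + 1) ≤ (s + 2) ^ 10 * (s + 2) ^ 2 := Nat.mul_le_mul hk h1
      _ = (s + 2) ^ 12 := by ring
  have h6 : k * (3 * m + 1) + 4 ≤ (s + 2) ^ 14 := by
    have h7 : 2 ^ 12 ≤ (s + 2) ^ 12 := Nat.pow_le_pow_left (by omega) 12
    have h8 : 4 ≤ (s + 2) ^ 2 := by nlinarith
    have h9 : (s + 2) ^ 12 * 4 ≤ (s + 2) ^ 12 * (s + 2) ^ 2 := Nat.mul_le_mul_left _ h8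
    have h10 : (s + 2) ^ 14 = (s + 2) ^ 12 * (s + 2) ^ 2 := by ring
    omega
  calc (k * (3 * m + 1) + 4) * m * ((s + 2) ^ 8 + 1)
      ≤ (s + 2) ^ 14 * (s + 2) * (s + 2) ^ 9 :=
        Nat.mul_le_mul (Nat.mul_le_mul h6 (by omega)) h2
    _ = (s + 2) ^ 24 := by ring

theorem nsq_def {m : ℕ} (v : Fin m → ℤ) : nsq v = v ⬝ᵥ v := rfl

/-- the number of witnesses -/
theorem gapC (wda : WdaStmt) (wdc : WdcStmt) (fnc : FncStmt) (n m w : ℕ)
    (A : Matrix (Fin n) (Fin m) ℤ) (v : Fin m → ℤ) (D : ℤ) (hI : IsCvp n m w A v D) :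
    (Close A v D → Odd (witnesses VbC ((Polynomial.X + 2) ^ 24) (encC n m w A v D)).ncard) ∧
    (¬ Close A v ((1 + n * (n + 1) / 2 : ℕ) * D) →
      Even (witnesses VbC ((Polynomial.X + 2) ^ 24) (encC n m w A v D)).ncard) := by
  have hr := prsG wda (n + 1) m w (addRow A v) D (addRow_lt hI.entries hI.target) hI.nonneg
    hI.bound
  unfold encC
  obtain ⟨h1, h2, h3, h4, h5, h6⟩ := hr
  generalize hx : enc (n + 1) m w (addRow A v) D = x at *
  obtain ⟨d, rfl⟩ := Int.eq_ofNat_of_zero_le hI.nonneg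
  have g1 : m ≤ x.length := by omega
  have g2 : w + 2 ≤ x.length := by omega
  have hd : d < 2 ^ w := by exact_mod_cast hI.bound
  have hd4 : 4 * d < 2 ^ (w + 2) := by
    rw [pow_add]
    omega
  have hw : 2 ^ w ≤ 2 ^ x.length := Nat.pow_le_pow_right (by norm_num) (by omega)
  have hw2 : 2 ^ (w + 2) ≤ 2 ^ x.length := Nat.pow_le_pow_right (by norm_num) g2
  have hw' : (2 : ℤ) ^ w ≤ 2 ^ x.length := by exact_mod_cast hw
  have F : FinC n m x.length d A v :=
    fnc n m x.length d A v hI.dim hI.indep g1 (lt_of_lt_of_le hd4 hw2)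
      (fun i j => lt_of_lt_of_le (hI.entries i j) hw')
      (fun j => lt_of_lt_of_le (hI.target j) hw')
  have hpa : ∀ (i : Fin n) (j : Fin m), pa x i j = A i j := by
    intro i j
    rw [← addRow_lo A v i j, ← h4 i.castSucc j]
    rfl
  have hpv : ∀ j : Fin m, pa x n j = v j := by
    intro j
    rw [← addRow_hi A v j, ← h4 (Fin.last n) j]
    rfl
  have hq : ∀ p ∈ CS A v d x.length, (wrdC (wid x) A (4 * (d : ℤ)) p).length ≤
      ((Polynomial.X + 2) ^ 24 : Polynomial ℕ).eval x.length := by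
    intro p hp
    unfold wrdC
    rw [(wdc _ _).1]
    have h7 := bound_qC g1 (F.len p hp)
    simp only [Polynomial.eval_pow, Polynomial.eval_add, Polynomial.eval_X,
      Polynomial.eval_ofNat]
    exact h7
  have e := witC_eq wdc F hI.dim h1 h2 h5 hpa hpv _ hq
  rw [e, Set.InjOn.ncard_image (wrdC_inj wdc F hI.dim h2)]
  constructor
  · rintro ⟨c, hc⟩
    exact F.yes ⟨c, hc⟩
  · intro h
    refine F.no fun c => ?_
    by_contra h9
    exact h ⟨c, not_lt.1 h9⟩

/-- **GapCVP with factor `sqrt (1 + n (n + 1) / 2)`**: a predicate decidable in polynomial time such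
that the number of the witnesses is odd for the positive instances and even for the negative
instances. -/
theorem promiseC (wda : WdaStmt) (wdc : WdcStmt) (fnc : FncStmt) (mcc : MccStmt) :
    ∃ (V : Word × Word → Bool) (q : Polynomial ℕ), PolyPair V ∧
      ∀ (n m w : ℕ) (A : Matrix (Fin n) (Fin m) ℤ) (v : Fin m → ℤ) (D : ℤ), IsCvp n m w A v D →
        (Close A v D → Odd (witnesses V q (encC n m w A v D)).ncard) ∧
        (¬ Close A v ((1 + n * (n + 1) / 2 : ℕ) * D) →
          Even (witnesses V q (encC n m w A v D)).ncard) :=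
  ⟨VbC, (Polynomial.X + 2) ^ 24, mcc, fun n m w A v D hI => gapC wda wdc fnc n m w A v D hI⟩

/-- Promise problems with a reduction to GapCVP with factor `sqrt (1 + n (n + 1) / 2)` are separated
by a language in parity-P. -/
theorem separatedC (wda : WdaStmt) (wdc : WdcStmt) (fnc : FncStmt) (mcc : MccStmt) (red : RedStmt)
    (Y N : Set Word) (f : Word → Word) (hf : PolyWord f)
    (h : ∀ x ∈ Y ∪ N, ∃ (n m w : ℕ) (A : Matrix (Fin n) (Fin m) ℤ) (v : Fin m → ℤ) (D : ℤ),
      IsCvp n m w A v D ∧ f x = encC n m w A v D ∧ (x ∈ Y → Close A v D) ∧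
      (x ∈ N → ¬ Close A v ((1 + n * (n + 1) / 2 : ℕ) * D))) :
    ∃ K : Set Word, InParityP K ∧ (∀ x ∈ Y, x ∈ K) ∧ ∀ x ∈ N, x ∉ K := by
  obtain ⟨V, q, hV, hVq⟩ := promiseC wda wdc fnc mcc
  refine ⟨{x | Odd (witnesses V q (f x)).ncard},
    red _ {x | Odd (witnesses V q x).ncard} f hf ⟨V, q, hV, fun x => Iff.rfl⟩ fun x => Iff.rfl,
    fun x hx => ?_, fun x hx hx' => ?_⟩
  · obtain ⟨n, m, w, A, v, D, hI, e, h1, h2⟩ := h x (Or.inl hx)
    rw [Set.mem_ofPred_eq, e]
    exact (hVq n m w A v D hI).1 (h1 hx)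
  · obtain ⟨n, m, w, A, v, D, hI, e, h1, h2⟩ := h x (Or.inr hx)
    rw [Set.mem_ofPred_eq, e] at hx'
    exact (Nat.not_even_iff_odd.2 hx') ((hVq n m w A v D hI).2 (h2 hx))

end

end Pool.Agent.LAT.H33
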