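import Pool.Agent.Helper33_LAT.Lst
import Pool.Agent.LAT.DefsC

/-!
# Squad LAT, part 2: tables and matrices
-/

set_option autoImplicit false

namespace Pool.Agent.LAT.H33

open Pool.Agent.PAR Matrix

noncomputable section

variable {n m k : ℕ} {d : ℤ} {a : ℕ → ℕ → ℤ} {v' : ℕ → ℤ} {e : ℕ → ℕ → ℕ → ℤ} {f : ℕ → ℕ → ℤ}

/-- the conditions on block `t`, in terms of matrices -/
structure BlkC (n m : ℕ) (D : ℤ) (A : Matrix (Fin n) (Fin m) ℤ) (k : ℕ) (e : ℕ → ℕ → ℕ → ℤ)
    (t : ℕ) : Prop where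
  hnf : IsHNF (Bm m e t)
  tri : IsTri (GG (Bm m e t)) (Ym m e t)
  pow : ∀ i < m, e t (3 * m) i = PB D (Bm m e t) i
  link : t + 1 < k → Bm m e t = Xm m e t * Bm m e (t + 1)
  linkz : t + 1 < k → ∀ i j, Bm m e (t + 1) j j = 0 → Xm m e t i j = 0
  strict : t + 1 < k → Bm m e t ≠ Bm m e (t + 1)
  last : t + 1 = k → Bm m e t = Xn n m e t * A
  lastz : t + 1 = k → ∀ i < m, ∀ l < m, n ≤ l → e t (2 * m + i) l = 0

theorem hnf_ofC (h : ChkC n m d a v' k e f) {t : ℕ} (ht : t < k) : IsHNF (Bm m e t) where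
  tri := fun i j hij => h.tri t ht j j.2 i hij
  nonneg := fun i => h.diag t ht i i.2
  zero := fun i hi j => h.zero t ht i i.2 j j.2 hi
  red := fun i j hij => h.red t ht i i.2 j hij

theorem tri_ofC (h : ChkC n m d a v' k e f) {t : ℕ} (ht : t < k) :
    IsTri (GG (Bm m e t)) (Ym m e t) where
  low := fun i j hij => h.ylow t ht j j.2 i hij
  up := fun i j hij => by
    rw [← yge_eq]
    exact h.ytri t ht i i.2 j hij
  zero := fun i hi => by
    have := h.yone t ht
    simp only [Ym, Matrix.of_apply, hi, Nat.add_zero]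
    exact this
  step := fun i j hij => by
    rw [← yge_eq]
    have h1 := h.ystep t ht i i.2 (by omega)
    simp only [Ym, Matrix.of_apply, hij]
    exact h1

theorem pow_ofC (h : ChkC n m d a v' k e f) {t : ℕ} (ht : t < k) : ∀ i : ℕ, i < m →
    e t (3 * m) i = PB (4 * d) (Bm m e t) i := by
  intro i
  induction i with
  | zero =>
    intro hi
    rw [h.pone t ht, PB_zero]
  | succ i ih =>
    intro hi
    rw [h.pstep t ht i (by omega) hi, ih (by omega)]
    exact (PB_succ (4 * d) (Bm m e t) ⟨i, by omega⟩).symm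

theorem blkC_of_chk {A : Matrix (Fin n) (Fin m) ℤ} (ha : ∀ (i : Fin n) (j : Fin m), a i j = A i j)
    (h : ChkC n m d a v' k e f) {t : ℕ} (ht : t < k) : BlkC n m (4 * d) A k e t where
  hnf := hnf_ofC h ht
  tri := tri_ofC h ht
  pow := pow_ofC h ht
  link := fun ht' => by
    ext i j
    have h1 := h.link t ht ht' i i.2 j j.2
    rw [Finset.sum_range] at h1
    rw [Matrix.mul_apply]
    exact h1.symm
  linkz := fun ht' i j hj => h.linkz t ht ht' i i.2 j j.2 hj
  strict := fun ht' h0 => by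
    obtain ⟨i, hi, j, hj, h1⟩ := h.strict t ht ht'
    exact h1 (congrFun (congrFun h0 ⟨i, hi⟩) ⟨j, hj⟩)
  last := fun ht' => by
    ext i j
    have h1 := h.last t ht ht' i i.2 j j.2
    rw [Finset.sum_range] at h1
    rw [Matrix.mul_apply]
    have h2 : ∀ l : Fin n, e t (2 * m + i) l * a l j = Xn n m e t i l * A l j := fun l => by
      rw [ha]
      rfl
    rw [Finset.sum_congr rfl fun l _ => h2 l] at h1
    exact h1.symm
  lastz := h.lastz t ht

/-- the vectors of the tail -/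
def uv (m : ℕ) (f : ℕ → ℕ → ℤ) : Fin m → ℤ := fun j => f 0 j

/-- the vectors of the tail -/
def zv (n : ℕ) (f : ℕ → ℕ → ℤ) : Fin n → ℤ := fun j => f 1 j

/-- the vectors of the tail -/
def yv (m : ℕ) (f : ℕ → ℕ → ℤ) : Fin m → ℤ := fun j => f 2 j

/-- the conditions on the tail, in terms of matrices -/
structure TlC (n m : ℕ) (d : ℤ) (A : Matrix (Fin n) (Fin m) ℤ) (v : Fin m → ℤ) (k : ℕ)
    (e : ℕ → ℕ → ℕ → ℤ) (f : ℕ → ℕ → ℤ) (c : ℕ) : Prop where
  cell : f 3 0 = (c : ℤ)
  pq : (GG (Bm m e c)).det ≤ (4 * d) ^ piv (Bm m e c)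
  before : ∀ t < c, (4 * d) ^ piv (Bm m e c) * (GG (Bm m e t)).det <
    (4 * d) ^ piv (Bm m e t) * (GG (Bm m e c)).det
  after : ∀ t, c < t → t < k → (4 * d) ^ piv (Bm m e c) * (GG (Bm m e t)).det ≤
    (4 * d) ^ piv (Bm m e t) * (GG (Bm m e c)).det
  mem : zv n f ᵥ* A = uv m f
  red : ∀ j, 0 < Bm m e c j j → 0 ≤ uv m f j ∧ uv m f j < Bm m e c j j
  sol : yv m f ᵥ* GG (Bm m e c) = -(GG (Bm m e c)).det • (Bm m e c *ᵥ (v - uv m f))
  dist : yv m f ⬝ᵥ (Bm m e c *ᵥ (v - uv m f)) +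
    (GG (Bm m e c)).det * ((v - uv m f) ⬝ᵥ (v - uv m f)) ≤ d * (GG (Bm m e c)).det

/-- the value of the certificate of the determinant -/
def DetOk (m : ℕ) : Prop := ∀ B : Matrix (Fin m) (Fin m) ℤ, IsHNF B → ∀ Y, IsTri (GG B) Y →
  ∀ i : Fin m, (i : ℕ) + 1 = m → (Y * GG B) i i = (GG B).det

theorem dte_eq {A : Matrix (Fin n) (Fin m) ℤ} {D : ℤ} (hd : DetOk m) (hm : 0 < m) {t : ℕ}
    (h : BlkC n m D A k e t) : dte m e t = (GG (Bm m e t)).det := by
  have h1 := hd _ h.hnf _ h.tri ⟨m - 1, by omega⟩ (by simp only; omega)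
  rw [← yge_eq] at h1
  exact h1

theorem pte_eq {A : Matrix (Fin n) (Fin m) ℤ} (hm : 0 < m) {t : ℕ}
    (h : BlkC n m (4 * d) A k e t) : pte m d e t = (4 * d) ^ piv (Bm m e t) := by
  unfold pte
  rw [h.pow _ (by omega), ← PB_last (4 * d) _ h.hnf]
  have h2 := PB_succ (4 * d) (Bm m e t) ⟨m - 1, by omega⟩
  simp only at h2
  rw [Nat.sub_add_cancel hm] at h2
  rw [h2]
  rfl

variable {v : Fin m → ℤ}

theorem mulVec_Bm (hv : ∀ j : Fin m, v' j = v j) (c : ℕ) (i : Fin m) :
    ∑ j ∈ Finset.range m, e c i j * (v' j - f 0 j) = (Bm m e c *ᵥ (v - uv m f)) i := by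
  rw [Finset.sum_range]
  simp only [Matrix.mulVec, dotProduct, Bm, Matrix.of_apply, Pi.sub_apply, uv]
  exact Finset.sum_congr rfl fun j _ => by rw [hv]

theorem mark_iff {A : Matrix (Fin n) (Fin m) ℤ} (hd : DetOk m) (hm : 0 < m)
    (ha : ∀ (i : Fin n) (j : Fin m), a i j = A i j) (hv : ∀ j : Fin m, v' j = v j)
    (h : ∀ t < k, BlkC n m (4 * d) A k e t) {c : ℕ} (hc : c < k) :
    (Mark m d v' k e f c ∧ ∀ j < m, ∑ l ∈ Finset.range n, f 1 l * a l j = f 0 j) ↔
      TlC n m d A v k e f c := by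
  have hc' := h c hc
  have eg : ∀ i : Fin m, (∑ l ∈ Finset.range m, f 2 l * gme m e c l i =
      -(dte m e c) * ∑ j ∈ Finset.range m, e c i j * (v' j - f 0 j)) ↔
      (yv m f ᵥ* GG (Bm m e c)) i =
        (-(GG (Bm m e c)).det • (Bm m e c *ᵥ (v - uv m f))) i := by
    intro i
    rw [mulVec_Bm hv, dte_eq hd hm hc', Finset.sum_range, Pi.smul_apply, smul_eq_mul]
    have : (yv m f ᵥ* GG (Bm m e c)) i = ∑ l : Fin m, f 2 l * gme m e c l i := by
      simp only [Matrix.vecMul, dotProduct, yv, gme_eq]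
    rw [this]
  have em : ∀ j : Fin m, (∑ l ∈ Finset.range n, f 1 l * a l j = f 0 j) ↔
      (zv n f ᵥ* A) j = uv m f j := by
    intro j
    rw [Finset.sum_range]
    have : (zv n f ᵥ* A) j = ∑ l : Fin n, f 1 l * a l j := by
      simp only [Matrix.vecMul, dotProduct, zv, ha]
    rw [this]
    rfl
  have ed : (∑ i ∈ Finset.range m, f 2 i * ∑ j ∈ Finset.range m, e c i j * (v' j - f 0 j)) +
      dte m e c * ∑ j ∈ Finset.range m, (v' j - f 0 j) * (v' j - f 0 j) =
      yv m f ⬝ᵥ (Bm m e c *ᵥ (v - uv m f)) +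
        (GG (Bm m e c)).det * ((v - uv m f) ⬝ᵥ (v - uv m f)) := by
    rw [dte_eq hd hm hc']
    congr 1
    · rw [Finset.sum_range]
      simp only [dotProduct, yv]
      exact Finset.sum_congr rfl fun i _ => by rw [mulVec_Bm hv]
    · congr 1
      rw [Finset.sum_range]
      simp only [dotProduct, Pi.sub_apply, uv]
      exact Finset.sum_congr rfl fun i _ => by rw [hv]
  constructor
  · rintro ⟨h1, h2⟩
    constructor
    · exact h1.cell
    · rw [← dte_eq hd hm hc', ← pte_eq hm hc']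
      exact h1.dp
    · intro t ht
      have h3 := h1.lt t (by omega) ht
      have ht' := h t (by omega)
      rw [pte_eq hm hc', pte_eq hm ht', dte_eq hd hm hc', dte_eq hd hm ht'] at h3
      exact h3
    · intro t ht htk
      have h3 := h1.le t htk ht
      have ht' := h t htk
      rw [pte_eq hm hc', pte_eq hm ht', dte_eq hd hm hc', dte_eq hd hm ht'] at h3
      exact h3
    · ext j
      exact (em j).1 (h2 j j.2)
    · exact fun j hj => h1.red j j.2 hj
    · ext i
      exact (eg i).1 (h1.sol i i.2)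
    · rw [← ed, ← dte_eq hd hm hc']
      exact h1.dist
  · intro h1
    refine ⟨⟨h1.cell, ?_, ?_, ?_, ?_, ?_, ?_⟩, ?_⟩
    · rw [dte_eq hd hm hc', pte_eq hm hc']
      exact h1.pq
    · intro t htk ht
      have ht' := h t htk
      rw [pte_eq hm hc', pte_eq hm ht', dte_eq hd hm hc', dte_eq hd hm ht']
      exact h1.before t ht
    · intro t htk ht
      have ht' := h t htk
      rw [pte_eq hm hc', pte_eq hm ht', dte_eq hd hm hc', dte_eq hd hm ht']
      exact h1.after t ht htk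
    · exact fun j hj h0 => h1.red ⟨j, hj⟩ h0
    · exact fun i hi => (eg ⟨i, hi⟩).2 (congrFun h1.sol ⟨i, hi⟩)
    · rw [ed, dte_eq hd hm hc']
      exact h1.dist
    · exact fun j hj => (em ⟨j, hj⟩).2 (congrFun h1.mem ⟨j, hj⟩)

theorem chkC_iff {A : Matrix (Fin n) (Fin m) ℤ} (hd : DetOk m) (hm : 0 < m)
    (ha : ∀ (i : Fin n) (j : Fin m), a i j = A i j) (hv : ∀ j : Fin m, v' j = v j) :
    ChkC n m d a v' k e f ↔ (∀ t < k, BlkC n m (4 * d) A k e t) ∧
      (∀ l < m, n ≤ l → f 1 l = 0) ∧ (∀ j < m, 0 < j → f 3 j = 0) ∧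
      ∃ c < k, TlC n m d A v k e f c := by
  constructor
  · intro h
    have h1 : ∀ t < k, BlkC n m (4 * d) A k e t := fun t ht => blkC_of_chk ha h ht
    obtain ⟨c, hc, h2⟩ := h.mark
    exact ⟨h1, h.memz, h.markz, c, hc, (mark_iff hd hm ha hv h1 hc).1 ⟨h2, h.mem⟩⟩
  · rintro ⟨h, h2, h3, c, hc, h4⟩
    obtain ⟨h5, h6⟩ := (mark_iff hd hm ha hv h hc).2 h4
    exact
      { tri := fun t ht j hj i hij => (h t ht).hnf.tri ⟨i, by omega⟩ ⟨j, hj⟩ hij
        diag := fun t ht i hi => (h t ht).hnf.nonneg ⟨i, hi⟩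
        zero := fun t ht i hi j hj h0 => (h t ht).hnf.zero ⟨i, hi⟩ h0 ⟨j, hj⟩
        red := fun t ht i hi j hij => (h t ht).hnf.red ⟨i, hi⟩ ⟨j, by omega⟩ hij
        ylow := fun t ht j hj i hij => (h t ht).tri.low ⟨i, by omega⟩ ⟨j, hj⟩ hij
        ytri := fun t ht i hi j hij => by
          have h1 := (h t ht).tri.up ⟨i, hi⟩ ⟨j, by omega⟩ hij
          rw [← yge_eq] at h1
          exact h1
        yone := fun t ht => (h t ht).tri.zero ⟨0, hm⟩ rfl
        ystep := fun t ht i hi hi' => by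
          have h1 := (h t ht).tri.step ⟨i, hi⟩ ⟨i + 1, hi'⟩ rfl
          rw [← yge_eq] at h1
          exact h1
        pone := fun t ht => by
          rw [(h t ht).pow 0 hm, PB_zero]
        pstep := fun t ht i hi hi' => by
          rw [(h t ht).pow _ hi', (h t ht).pow _ hi]
          exact PB_succ (4 * d) (Bm m e t) ⟨i, hi⟩
        link := fun t ht ht' i hi j hj => by
          have h1 := congrFun (congrFun ((h t ht).link ht') ⟨i, hi⟩) ⟨j, hj⟩
          rw [Matrix.mul_apply] at h1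
          rw [Finset.sum_range]
          exact h1.symm
        linkz := fun t ht ht' i hi l hl h0 => (h t ht).linkz ht' ⟨i, hi⟩ ⟨l, hl⟩ h0
        last := fun t ht ht' i hi j hj => by
          have h1 := congrFun (congrFun ((h t ht).last ht') ⟨i, hi⟩) ⟨j, hj⟩
          rw [Matrix.mul_apply] at h1
          rw [Finset.sum_range]
          have h2 : ∀ l : Fin n, e t (2 * m + i) l * a l j =
              Xn n m e t ⟨i, hi⟩ l * A l ⟨j, hj⟩ := fun l => by
            rw [ha l ⟨j, hj⟩]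
            rfl
          rw [Finset.sum_congr rfl fun l _ => h2 l]
          exact h1.symm
        lastz := fun t ht ht' => (h t ht).lastz ht'
        strict := fun t ht ht' => by
          by_contra hc
          push Not at hc
          refine (h t ht).strict ht' ?_
          ext i j
          exact hc i i.2 j j.2
        mem := h6
        memz := h2
        markz := h3
        mark := ⟨c, hc, h5⟩ }

end

end Pool.Agent.LAT.H33
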