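import Pool.Agent.Helper33_LAT.CChk

/-!
# Squad LAT, part 2: chains and canonical tables
-/

set_option autoImplicit false

namespace Pool.Agent.LAT.H33

open Pool.Agent.PAR Matrix

noncomputable section

variable {n m k s d : ℕ} {A : Matrix (Fin n) (Fin m) ℤ} {v : Fin m → ℤ}
  {e e' : ℕ → ℕ → ℕ → ℤ}

/-- a strictly increasing chain of sublattices -/
structure Chq (A : Matrix (Fin n) (Fin m) ℤ) (l : List (Matrix (Fin m) (Fin m) ℤ)) : Prop where
  hnf : ∀ B ∈ l, IsHNF B ∧ rows B ≤ rows A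
  chain : l.Pairwise fun B B' => rows B < rows B'

theorem Chq.getD {l : List (Matrix (Fin m) (Fin m) ℤ)} (hl : Chq A l) {t : ℕ}
    (ht : t < l.length) : IsHNF (l.getD t 0) ∧ rows (l.getD t 0) ≤ rows A := by
  rw [List.getD_eq_getElem _ _ ht]
  exact hl.hnf _ (List.getElem_mem ht)

theorem Chq.lt {l : List (Matrix (Fin m) (Fin m) ℤ)} (hl : Chq A l) {t u : ℕ} (htu : t < u)
    (hu : u < l.length) : rows (l.getD t 0) < rows (l.getD u 0) := by
  rw [List.getD_eq_getElem _ _ hu, List.getD_eq_getElem _ _ (htu.trans hu)]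
  exact (List.pairwise_iff_getElem.1 hl.chain) t u (htu.trans hu) hu htu

theorem PQ_getD {l : List (Matrix (Fin m) (Fin m) ℤ)} {L : Submodule ℤ (Fin m → ℤ)} {D : ℕ}
    (h : ∀ B ∈ l, PQ L D B) {t : ℕ} (ht : t < l.length) : PQ L D (l.getD t 0) := by
  rw [List.getD_eq_getElem _ _ ht]
  exact h _ (List.getElem_mem ht)

/-- the canonical table is accepted -/
theorem blkC_can (F : FinC n m s d A v) {l : List (Matrix (Fin m) (Fin m) ℤ)} (hl : Chq A l)
    (hp : ∀ B ∈ l, PQ (rows A) (4 * d) B) {t : ℕ} (ht : t < l.length) :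
    BlkC n m (4 * (d : ℤ)) A l.length (can A (4 * (d : ℤ)) l) t := by
  have hB := hl.getD ht
  obtain ⟨Y, hY, -⟩ := F.exY _ (PQ_getD hp ht)
  have hY' := Yc_spec ⟨Y, hY⟩
  have eB := Bm_can A (4 * (d : ℤ)) l t
  have eY := Ym_can A (4 * (d : ℤ)) l t
  constructor
  · rw [eB]; exact hB.1
  · rw [eB, eY]; exact hY'
  · intro i _
    rw [pow_can, eB]
  · intro ht'
    have hB' := hl.getD ht'
    rw [Xm_can A _ l ht', eB, Bm_can]
    exact (Xc_spec ((F.inc _ _ hB'.1).1 (hl.lt (Nat.lt_succ_self t) ht').le)).1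
  · intro ht'
    have hB' := hl.getD ht'
    rw [Xm_can A _ l ht', Bm_can]
    exact (Xc_spec ((F.inc _ _ hB'.1).1 (hl.lt (Nat.lt_succ_self t) ht').le)).2
  · intro ht' h0
    rw [eB, Bm_can] at h0
    have h1 := hl.lt (Nat.lt_succ_self t) ht'
    rw [h0] at h1
    exact lt_irrefl _ h1
  · intro ht'
    rw [Xn_can A _ l (by omega), eB]
    exact Xa_spec ((F.ina _).1 hB.2)
  · intro ht' i hi j hj hnj
    simp only [can]
    rw [if_neg (by omega), if_neg (by omega), if_pos (by omega), if_neg (by omega)]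
    unfold nx
    rw [dif_neg (by omega)]

/-- the entries of the canonical table are bounded -/
theorem canC_lt (F : FinC n m s d A v) {l : List (Matrix (Fin m) (Fin m) ℤ)} (hl : Chq A l)
    (hp : ∀ B ∈ l, PQ (rows A) (4 * d) B) {t : ℕ} (ht : t < l.length) (r j : ℕ) :
    |can A (4 * (d : ℤ)) l t r j| < 2 ^ ((s + 2) ^ 8) := by
  have hP := PQ_getD hp ht
  have h2 : (0 : ℤ) < 2 ^ ((s + 2) ^ 8) := by positivity
  obtain ⟨Y, hY, hYb⟩ := F.exY _ hP
  have hY' := Yc_spec ⟨Y, hY⟩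
  have eY : Yc (l.getD t 0) = Y := F.unY _ hP.1 _ _ hY' hY
  unfold can
  split_ifs with h3 h4 h5 h6
  · exact nx_lt _ _ h2 (F.bB _ hP) _ _
  · rw [eY]
    exact nx_lt _ _ h2 hYb _ _
  · have hP' := PQ_getD hp h6
    have hX := Xc_spec ((F.inc _ _ hP'.1).1 (hl.lt (Nat.lt_succ_self t) h6).le)
    exact nx_lt _ _ h2 (F.bX _ _ hP hP' _ hX.1 hX.2) _ _
  · exact nx_lt _ _ h2 (F.bA _ hP _ (Xa_spec ((F.ina _).1 hP.2.1))) _ _
  · obtain ⟨c, hc, e⟩ := PB_eq (d := 4 * d) (l.getD t 0) j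
    have e4 : ((4 * d : ℕ) : ℤ) = 4 * (d : ℤ) := by push_cast; ring
    rw [← e4, e, abs_of_nonneg (by positivity)]
    exact F.pw c hc

theorem rowsC_lt_next (F : FinC n m s d A v) {D : ℤ} (h : ∀ t < k, BlkC n m D A k e t) {t : ℕ}
    (ht : t + 1 < k) : rows (Bm m e t) < rows (Bm m e (t + 1)) := by
  have h1 := h t (by omega)
  have h2 := h (t + 1) ht
  have h3 : rows (Bm m e t) ≤ rows (Bm m e (t + 1)) :=
    (F.inc _ _ h2.hnf).2 ⟨_, h1.link ht, h1.linkz ht⟩
  refine lt_of_le_of_ne h3 fun h4 => h1.strict ht (F.eqr _ _ h1.hnf h2.hnf h4)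

theorem rowsC_lt (F : FinC n m s d A v) {D : ℤ} (h : ∀ t < k, BlkC n m D A k e t) {t : ℕ} :
    ∀ u, t < u → u < k → rows (Bm m e t) < rows (Bm m e u) := by
  intro u
  induction u with
  | zero => intro h1; omega
  | succ u ih =>
    intro h1 h2
    rcases Nat.lt_succ_iff_lt_or_eq.1 h1 with h3 | rfl
    · exact (ih h3 (by omega)).trans (rowsC_lt_next F h h2)
    · exact rowsC_lt_next F h h2

theorem rowsC_le (F : FinC n m s d A v) {D : ℤ} (h : ∀ t < k, BlkC n m D A k e t) {t : ℕ}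
    (ht : t < k) : rows (Bm m e t) ≤ rows A := by
  have h1 : rows (Bm m e (k - 1)) ≤ rows A := by
    have h2 := h (k - 1) (by omega)
    exact (F.ina _).2 ⟨_, h2.last (by omega)⟩
  rcases Nat.lt_or_ge t (k - 1) with h2 | h2
  · exact (rowsC_lt F h (k - 1) h2 (by omega)).le.trans h1
  · have : t = k - 1 := by omega
    rw [this]; exact h1

theorem lst_chq (F : FinC n m s d A v) {D : ℤ} (h : ∀ t < k, BlkC n m D A k e t) :
    Chq A (lst m k e) := by
  constructor
  · intro B hB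
    unfold lst at hB
    rw [List.mem_map] at hB
    obtain ⟨t, ht, rfl⟩ := hB
    exact ⟨(h t (List.mem_range.1 ht)).hnf, rowsC_le F h (List.mem_range.1 ht)⟩
  · unfold lst
    rw [List.pairwise_map]
    refine (List.pairwise_lt_range (n := k)).imp_of_mem ?_
    intro i j _ hj hij
    exact rowsC_lt F h j hij (List.mem_range.1 hj)

/-- an accepted table is canonical -/
theorem eq_canC (F : FinC n m s d A v) (h : ∀ t < k, BlkC n m (4 * (d : ℤ)) A k e t)
    (hp : ∀ B ∈ lst m k e, PQ (rows A) (4 * d) B) {t : ℕ} (ht : t < k)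
    {r j : ℕ} (hr : r < 3 * m + 1) (hj : j < m) :
    e t r j = can A (4 * (d : ℤ)) (lst m k e) t r j := by
  have h1 := h t ht
  have eB := getD_lst (m := m) (e := e) ht
  have hP : PQ (rows A) (4 * d) (Bm m e t) := by
    rw [← eB]
    exact PQ_getD hp (by rw [length_lst]; exact ht)
  unfold can
  rw [eB]
  split_ifs with h3 h4 h5 h6
  · exact (nx_fin (Bm m e t) ⟨r, h3⟩ ⟨j, hj⟩).symm
  · obtain ⟨Y, hY, -⟩ := F.exY _ hP
    have eY : Yc (Bm m e t) = Ym m e t := F.unY _ hP.1 _ _ (Yc_spec ⟨Y, hY⟩) h1.tri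
    rw [eY]
    have h6 := nx_fin (Ym m e t) ⟨r - m, by omega⟩ ⟨j, hj⟩
    simp only at h6
    rw [h6]
    simp only [Ym, Matrix.of_apply]
    congr 1
    omega
  · rw [length_lst] at h6
    rw [getD_lst h6]
    have hB' := (h _ h6).hnf
    have hX := Xc_spec ((F.inc _ _ hB').1 (rowsC_lt_next F h h6).le)
    have eX : Xc (Bm m e t) (Bm m e (t + 1)) = Xm m e t :=
      F.unX _ _ hB' _ _ hX.1 hX.2 (h1.link h6) (h1.linkz h6)
    rw [eX]
    have h7 := nx_fin (Xm m e t) ⟨r - 2 * m, by omega⟩ ⟨j, hj⟩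
    simp only at h7
    rw [h7]
    simp only [Xm, Matrix.of_apply]
    congr 1
    omega
  · rw [length_lst] at h6
    have hk : t + 1 = k := by omega
    have eX : Xa A (Bm m e t) = Xn n m e t :=
      F.unA _ _ _ (Xa_spec ⟨_, h1.last hk⟩) (h1.last hk)
    rw [eX]
    have e1 : e t r j = e t (2 * m + (r - 2 * m)) j := by
      congr 1
      omega
    rcases Nat.lt_or_ge j n with h7 | h7
    · have h8 := nx_fin (Xn n m e t) ⟨r - 2 * m, by omega⟩ ⟨j, h7⟩
      simp only at h8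
      rw [h8, e1]
      rfl
    · have h8 := h1.lastz hk (r - 2 * m) (by omega) j hj h7
      unfold nx
      rw [dif_neg (by omega), e1, h8]
  · have h9 : r = 3 * m := by omega
    rw [h9]
    exact h1.pow j hj

/-- the matrices depend only on the cells of the table -/
theorem Bm_congr (he : ∀ t < k, ∀ r < 3 * m + 1, ∀ j < m, e t r j = e' t r j) {t : ℕ}
    (ht : t < k) : Bm m e' t = Bm m e t := by
  ext i j
  exact (he t ht i (by omega) j j.2).symm

/-- the conditions depend only on the cells of the table -/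
theorem blkC_congr {D : ℤ} (he : ∀ t < k, ∀ r < 3 * m + 1, ∀ j < m, e t r j = e' t r j) {t : ℕ}
    (ht : t < k) (h : BlkC n m D A k e t) (hnm : n ≤ m) : BlkC n m D A k e' t := by
  have eB : ∀ t < k, Bm m e' t = Bm m e t := fun t ht => Bm_congr he ht
  have eY : Ym m e' t = Ym m e t := by
    ext i j
    exact (he t ht (m + i) (by omega) j j.2).symm
  have eX : Xm m e' t = Xm m e t := by
    ext i j
    exact (he t ht (2 * m + i) (by omega) j j.2).symm
  have eN : Xn n m e' t = Xn n m e t := by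
    ext i j
    exact (he t ht (2 * m + i) (by omega) j (by omega)).symm
  constructor
  · rw [eB t ht]; exact h.hnf
  · rw [eB t ht, eY]; exact h.tri
  · intro i hi
    rw [eB t ht, ← he t ht (3 * m) (by omega) i hi]
    exact h.pow i hi
  · intro ht'
    rw [eB t ht, eX, eB _ ht']
    exact h.link ht'
  · intro ht'
    rw [eX, eB _ ht']
    exact h.linkz ht'
  · intro ht'
    rw [eB t ht, eB _ ht']
    exact h.strict ht'
  · intro ht'
    rw [eB t ht, eN]
    exact h.last ht'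
  · intro ht' i hi j hj hnj
    rw [← he t ht (2 * m + i) (by omega) j hj]
    exact h.lastz ht' i hi j hj hnj

end

end Pool.Agent.LAT.H33
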