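import Pool.Agent.Helper33_LAT.Prm
import Pool.Agent.Helper72_LAT.Final
import Pool.Agent.Helper58_LAT.WD
import Pool.Agent.Helper80_LAT.WDC
import Pool.Agent.Helper96_LAT.PRS
import Pool.Agent.Helper7_LAT.MCH
import Pool.Agent.Helper62_LAT.RED

/-!
# Squad LAT: the rows of the words and of the machine
-/

set_option autoImplicit false

namespace Pool.Agent.LAT.H33

theorem wda_ : WdaStmt := H58.wda
theorem wdb_ : WdbStmt := H58.wdb
theorem wdc_ : WdcStmt := H80.wdc wda_ wdb_
theorem prs_ : PrsStmt := H96.prs wda_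
theorem mch_ : MchStmt := H7.mch
theorem red_ : RedStmt := H62.red
theorem fnm_ : FnmStmt := H72.fnmF

end Pool.Agent.LAT.H33
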