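import Pool.Agent.Helper33_LAT.CAsm
import Pool.Agent.Helper33_LAT.Rows
import Pool.Agent.Helper7_LAT.MCC
import Pool.Agent.Helper72_LAT.FinalC

/-!
# Squad LAT, part 2: the rows of the words and of the machine
-/

set_option autoImplicit false

namespace Pool.Agent.LAT.H33

theorem mcc_ : MccStmt := H7.mcc
theorem fnc_ : FncStmt := H72.fncF

end Pool.Agent.LAT.H33
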