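import Pool.Agent.Helper33_LAT.Lst

/-!
# Squad LAT: the accepted words are the words of the chains
-/

set_option autoImplicit false

namespace Pool.Agent.LAT.H33

open Pool.Agent.PAR Matrix

noncomputable section

variable {n m : ℕ}

/-- the word of a chain -/
def wrd (S : ℕ) (A : Matrix (Fin n) (Fin m) ℤ) (d : ℕ) (l : List (Matrix (Fin m) (Fin m) ℤ)) :
    Word :=
  tw (l.length * ((3 * m + 1) * m)) S
    (fun i => can A d l (i / m / (3 * m + 1)) (i / m % (3 * m + 1)) (i % m))

theorem idx_lt {k R t r j : ℕ} (ht : t < k) (hr : r < R) (hj : j < m) :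
    (t * R + r) * m + j < k * (R * m) := by
  have h1 : t * R + r < k * R := by
    have : (t + 1) * R ≤ k * R := Nat.mul_le_mul_right _ ht
    rw [Nat.add_mul, one_mul] at this
    omega
  have h2 : (t * R + r + 1) * m ≤ k * R * m := Nat.mul_le_mul_right _ h1
  rw [Nat.add_mul, one_mul, mul_assoc] at h2
  omega

theorem idx_t {R t r j : ℕ} (hr : r < R) (hj : j < m) :
    ((t * R + r) * m + j) / m / R = t ∧ ((t * R + r) * m + j) / m % R = r ∧
      ((t * R + r) * m + j) % m = j := by
  have h1 : ((t * R + r) * m + j) / m = t * R + r := by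
    rw [mul_comm, Nat.mul_add_div (by omega), Nat.div_eq_of_lt hj, Nat.add_zero]
  have h2 : ((t * R + r) * m + j) % m = j := by
    rw [mul_comm, Nat.mul_add_mod, Nat.mod_eq_of_lt hj]
  have h3 : (t * R + r) / R = t := by
    rw [mul_comm, Nat.mul_add_div (by omega), Nat.div_eq_of_lt hr, Nat.add_zero]
  have h4 : (t * R + r) % R = r := by
    rw [mul_comm, Nat.mul_add_mod, Nat.mod_eq_of_lt hr]
  rw [h1, h2, h3, h4]
  exact ⟨rfl, rfl, rfl⟩

theorem idx_inv {k R i : ℕ} (hm : 0 < m) (hR : 0 < R) (hi : i < k * (R * m)) :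
    i / m / R < k ∧ i / m % R < R ∧ i % m < m ∧ (i / m / R * R + i / m % R) * m + i % m = i := by
  have h1 : i / m < k * R := by
    rw [Nat.div_lt_iff_lt_mul hm, mul_assoc]
    exact hi
  have h2 : i / m / R < k := by
    rw [Nat.div_lt_iff_lt_mul hR]
    exact h1
  refine ⟨h2, Nat.mod_lt _ hR, Nat.mod_lt _ hm, ?_⟩
  rw [Nat.div_add_mod', Nat.div_add_mod']

variable {A : Matrix (Fin n) (Fin m) ℤ} {s d : ℕ} {x : Word}

theorem Vb_iff (x y : Word) : Vb (x, y) = true ↔ Vp x y := by
  classical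
  unfold Vb
  exact decide_eq_true_iff

theorem pos_of_mem {l : List (Matrix (Fin m) (Fin m) ℤ)} (hl : l ∈ chL (rows A) d) :
    0 < m ∧ 0 < l.length := by
  have h1 : 0 < l.length := List.length_pos_iff.2 hl.1
  refine ⟨?_, h1⟩
  have h2 := PP_getD hl h1
  rcases Nat.eq_zero_or_pos m with hm | hm
  · exfalso
    subst hm
    exact h2.2.1 (Matrix.ext fun i => i.elim0)
  · exact hm

theorem ent_wrd (wdc : WdcStmt) (F : FinM n m x.length d A) (hpm : pm x = m)
    {l : List (Matrix (Fin m) (Fin m) ℤ)} (hl : l ∈ chL (rows A) d) {t r j : ℕ}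
    (ht : t < l.length) (hr : r < 3 * m + 1) (hj : j < m) :
    ent x (wrd (wid x) A d l) t r j = can A d l t r j := by
  unfold ent wrd
  rw [hpm]
  have h1 := idx_lt ht hr hj
  obtain ⟨e1, e2, e3⟩ := idx_t (t := t) hr hj
  have h2 := can_lt F hl ht r j
  have h3 : (x.length + 2) ^ 8 = wid x := rfl
  rw [h3, abs_lt] at h2
  rw [(wdc _ _).2.1 _ _ h1]
  · rw [e1, e2, e3]
  · rw [e1, e2, e3]
    exact h2.1.le
  · rw [e1, e2, e3]
    exact h2.2

theorem wit_eq (wdc : WdcStmt) (F : FinM n m x.length d A) (hpn : pn x = n) (hpm : pm x = m)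
    (hpD : pD x = d) (hpa : ∀ (i : Fin n) (j : Fin m), pa x i j = A i j) (q : Polynomial ℕ)
    (hq : ∀ l ∈ chL (rows A) d, (wrd (wid x) A d l).length ≤ q.eval x.length) :
    witnesses Vb q x = wrd (wid x) A d '' chL (rows A) d := by
  have hS : 0 < wid x + 1 := Nat.succ_pos _
  ext y
  constructor
  · rintro ⟨-, hy⟩
    rw [Vb_iff] at hy
    obtain ⟨h1, h2, h3, h4⟩ := hy
    rw [hpn, hpm, hpD] at h4
    generalize hk : y.length / bsz x = k at h1 h2 h4
    have hb : bsz x = (3 * m + 1) * m * (wid x + 1) := by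
      unfold bsz
      rw [hpm]
    have h5 : ∀ t < k, Blk n m d A k (ent x y) t := fun t ht => blk_of_chk hpa h4 ht
    have h6 := lst_mem F h5 h1
    have hm := (pos_of_mem h6).1
    refine ⟨lst m k (ent x y), h6, ?_⟩
    have h7 : y.length = k * ((3 * m + 1) * m) * (wid x + 1) := by
      rw [h2, hb]
      ring
    have h8 := ((wdc (k * ((3 * m + 1) * m)) (wid x)).2.2 y h7).1
    unfold wrd
    rw [length_lst]
    conv_rhs => rw [h8]
    unfold tw
    refine List.flatMap_congr fun i hi => ?_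
    rw [List.mem_range] at hi
    obtain ⟨g1, g2, g3, g4⟩ := idx_inv (R := 3 * m + 1) hm (by omega) hi
    have h9 := eq_can F h5 g1 g2 g3
    simp only
    rw [← h9]
    unfold ent
    rw [hpm, g4]
  · rintro ⟨l, hl, rfl⟩
    refine ⟨hq l hl, ?_⟩
    obtain ⟨hm, hk⟩ := pos_of_mem hl
    rw [Vb_iff]
    have hb : bsz x = (3 * m + 1) * m * (wid x + 1) := by
      unfold bsz
      rw [hpm]
    have hb0 : 0 < bsz x := by
      rw [hb]
      positivity
    have h1 : (wrd (wid x) A d l).length = l.length * bsz x := by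
      unfold wrd
      rw [(wdc _ _).1, hb]
      ring
    have h2 : (wrd (wid x) A d l).length / bsz x = l.length := by
      rw [h1, Nat.mul_div_cancel _ hb0]
    refine ⟨by rw [h2]; exact hk, by rw [h2]; exact h1, by rw [hpn, hpm]; exact F.nm, ?_⟩
    rw [h2, hpn, hpm, hpD]
    refine chk_of_blk hpa fun t ht => ?_
    refine blk_congr (fun t ht r hr j hj => ?_) ht (blk_can F hl ht) F.nm
    exact (ent_wrd wdc F hpm hl ht hr hj).symm

theorem wrd_inj (wdc : WdcStmt) (F : FinM n m x.length d A) (hpm : pm x = m) :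
    Set.InjOn (wrd (wid x) A d) (chL (rows A) d) := by
  intro l hl l' hl' h
  obtain ⟨hm, -⟩ := pos_of_mem hl
  have h1 : l.length = l'.length := by
    have h2 := congrArg List.length h
    unfold wrd at h2
    rw [(wdc _ _).1, (wdc _ _).1] at h2
    have h3 := Nat.eq_of_mul_eq_mul_right (Nat.succ_pos _) h2
    exact Nat.eq_of_mul_eq_mul_right (by positivity) h3
  refine List.ext_getElem h1 fun t ht ht' => ?_
  have e1 := Bm_can A (d : ℤ) l t
  have e2 := Bm_can A (d : ℤ) l' t
  rw [← List.getD_eq_getElem l 0 ht, ← List.getD_eq_getElem l' 0 ht', ← e1, ← e2]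
  ext i j
  simp only [Bm, Matrix.of_apply]
  rw [← ent_wrd wdc F hpm hl ht (by omega) j.2, h, ent_wrd wdc F hpm hl' ht' (by omega) j.2]

end

end Pool.Agent.LAT.H33
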