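import Pool.Agent.Helper33_LAT.CLst
import Pool.Agent.Helper33_LAT.Wrd

/-!
# Squad LAT, part 2: the accepted words are the words of the certificates
-/

set_option autoImplicit false

namespace Pool.Agent.LAT.H33

open Pool.Agent.PAR Matrix

noncomputable section

variable {n m : ℕ}

/-- the entries of a vector with natural numbers as indices -/
def nv {a : ℕ} (u : Fin a → ℤ) (j : ℕ) : ℤ := if h : j < a then u ⟨j, h⟩ else 0

theorem nv_fin {a : ℕ} (u : Fin a → ℤ) (j : Fin a) : nv u j = u j := by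
  unfold nv
  rw [dif_pos j.2]

/-- the tail of a certificate -/
def tl (u : Fin m → ℤ) (z : Fin n → ℤ) (y : Fin m → ℤ) (c : ℕ) (r j : ℕ) : ℤ :=
  if r = 0 then nv u j else if r = 1 then nv z j else if r = 2 then nv y j
  else if j = 0 then (c : ℤ) else 0

/-- the cells of a certificate, row by row -/
def cellC (A : Matrix (Fin n) (Fin m) ℤ) (D : ℤ) (l : List (Matrix (Fin m) (Fin m) ℤ)) (c : ℕ)
    (u : Fin m → ℤ) (z : Fin n → ℤ) (y : Fin m → ℤ) (R j : ℕ) : ℤ :=
  if R < l.length * (3 * m + 1) then can A D l (R / (3 * m + 1)) (R % (3 * m + 1)) j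
  else tl u z y c (R - l.length * (3 * m + 1)) j

/-- the word of a certificate -/
def wrdC (S : ℕ) (A : Matrix (Fin n) (Fin m) ℤ) (D : ℤ)
    (p : List (Matrix (Fin m) (Fin m) ℤ) × ℕ × (Fin m → ℤ) × (Fin n → ℤ) × (Fin m → ℤ)) : Word :=
  tw ((p.1.length * (3 * m + 1) + 4) * m) S
    (fun i => cellC A D p.1 p.2.1 p.2.2.1 p.2.2.2.1 p.2.2.2.2 (i / m) (i % m))

theorem row_idx {R j : ℕ} (hj : j < m) : (R * m + j) / m = R ∧ (R * m + j) % m = j := by
  constructor
  · rw [mul_comm, Nat.mul_add_div (by omega), Nat.div_eq_of_lt hj, Nat.add_zero]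
  · rw [mul_comm, Nat.mul_add_mod, Nat.mod_eq_of_lt hj]

theorem row_lt {R N j : ℕ} (hR : R < N) (hj : j < m) : R * m + j < N * m := by
  have h1 : (R + 1) * m ≤ N * m := Nat.mul_le_mul_right _ hR
  rw [Nat.add_mul, one_mul] at h1
  omega

theorem blk_idx {Q t r : ℕ} (hr : r < Q) : (t * Q + r) / Q = t ∧ (t * Q + r) % Q = r := by
  constructor
  · rw [mul_comm, Nat.mul_add_div (by omega), Nat.div_eq_of_lt hr, Nat.add_zero]
  · rw [mul_comm, Nat.mul_add_mod, Nat.mod_eq_of_lt hr]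

theorem blk_lt {Q t r k : ℕ} (hr : r < Q) (ht : t < k) : t * Q + r < k * Q := by
  have h1 : (t + 1) * Q ≤ k * Q := Nat.mul_le_mul_right _ ht
  rw [Nat.add_mul, one_mul] at h1
  omega

theorem pow_big (s : ℕ) : (s + 2) ^ 10 < 2 ^ ((s + 2) ^ 8) := by
  have h1 : s + 2 < 2 ^ (s + 2) := Nat.lt_two_pow_self
  have h2 : (s + 2) ^ 10 < (2 ^ (s + 2)) ^ 10 := Nat.pow_lt_pow_left h1 (by norm_num)
  rw [← pow_mul] at h2
  refine lt_of_lt_of_le h2 (Nat.pow_le_pow_right (by norm_num) ?_)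
  have h3 : 2 ^ 7 ≤ (s + 2) ^ 7 := Nat.pow_le_pow_left (by omega) 7
  calc (s + 2) * 10 ≤ (s + 2) * (s + 2) ^ 7 := Nat.mul_le_mul_left _ (by omega)
    _ = (s + 2) ^ 8 := by ring

variable {A : Matrix (Fin n) (Fin m) ℤ} {v : Fin m → ℤ} {d : ℕ} {x : Word}

theorem Chq_of {s : ℕ}
    {p : List (Matrix (Fin m) (Fin m) ℤ) × ℕ × (Fin m → ℤ) × (Fin n → ℤ) × (Fin m → ℤ)}
    (hp : p ∈ CS A v d s) : Chq A p.1 := ⟨hp.hnf, hp.chain⟩

theorem Rng_abs {S : ℕ} {z : ℤ} (h : |z| < 2 ^ S) : Rng S z := by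
  rw [abs_lt] at h
  exact ⟨h.1.le, h.2⟩

theorem Rng_zero (S : ℕ) : Rng S 0 := by
  constructor
  · have : (0 : ℤ) < 2 ^ S := by positivity
    linarith
  · positivity

theorem Rng_nv {a : ℕ} {u : Fin a → ℤ} {S : ℕ} (h : ∀ j, Rng S (u j)) (j : ℕ) :
    Rng S (nv u j) := by
  unfold nv
  split_ifs with h1
  · exact h _
  · exact Rng_zero S

/-- all cells are in the range -/
theorem cellC_rng (F : FinC n m x.length d A v)
    {p : List (Matrix (Fin m) (Fin m) ℤ) × ℕ × (Fin m → ℤ) × (Fin n → ℤ) × (Fin m → ℤ)}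
    (hp : p ∈ CS A v d x.length) (R j : ℕ) :
    Rng (wid x) (cellC A (4 * (d : ℤ)) p.1 p.2.1 p.2.2.1 p.2.2.2.1 p.2.2.2.2 R j) := by
  have hS : (x.length + 2) ^ 8 = wid x := rfl
  unfold cellC
  split_ifs with h1
  · refine Rng_abs ?_
    have h2 : R / (3 * m + 1) < p.1.length := by
      rw [Nat.div_lt_iff_lt_mul (by omega)]
      exact h1
    exact canC_lt F (Chq_of hp) (F.allpq p hp) h2 _ _
  · unfold tl
    split_ifs with h2 h3 h4 h5
    · exact Rng_nv hp.ru j
    · exact Rng_nv hp.rz j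
    · exact Rng_nv hp.ry j
    · have h6 := F.len p hp
      have h7 := hp.lt
      have h8 := pow_big x.length
      have h9 : p.2.1 < 2 ^ wid x := lt_trans (lt_of_lt_of_le h7 h6) h8
      constructor
      · have : (0 : ℤ) < 2 ^ wid x := by positivity
        have : (0 : ℤ) ≤ (p.2.1 : ℤ) := Int.natCast_nonneg _
        linarith
      · exact_mod_cast h9
    · exact Rng_zero _

theorem ent_wrdC (wdc : WdcStmt) (F : FinC n m x.length d A v) (hpm : pm x = m)
    {p : List (Matrix (Fin m) (Fin m) ℤ) × ℕ × (Fin m → ℤ) × (Fin n → ℤ) × (Fin m → ℤ)}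
    (hp : p ∈ CS A v d x.length) {t r j : ℕ}
    (ht : t * (3 * m + 1) + r < p.1.length * (3 * m + 1) + 4) (hj : j < m) :
    ent x (wrdC (wid x) A (4 * (d : ℤ)) p) t r j =
      cellC A (4 * (d : ℤ)) p.1 p.2.1 p.2.2.1 p.2.2.2.1 p.2.2.2.2 (t * (3 * m + 1) + r) j := by
  unfold ent wrdC
  rw [hpm]
  have h1 := row_lt ht hj
  obtain ⟨e1, e2⟩ := row_idx (R := t * (3 * m + 1) + r) hj
  have h2 := cellC_rng F hp (t * (3 * m + 1) + r) j
  rw [(wdc _ _).2.1 _ _ h1]
  · rw [e1, e2]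
  · rw [e1, e2]
    exact h2.1
  · rw [e1, e2]
    exact h2.2

theorem ent_blk (wdc : WdcStmt) (F : FinC n m x.length d A v) (hpm : pm x = m)
    {p : List (Matrix (Fin m) (Fin m) ℤ) × ℕ × (Fin m → ℤ) × (Fin n → ℤ) × (Fin m → ℤ)}
    (hp : p ∈ CS A v d x.length) {t r j : ℕ} (ht : t < p.1.length) (hr : r < 3 * m + 1)
    (hj : j < m) :
    ent x (wrdC (wid x) A (4 * (d : ℤ)) p) t r j = can A (4 * (d : ℤ)) p.1 t r j := by
  have h1 := blk_lt hr ht
  rw [ent_wrdC wdc F hpm hp (by omega) hj]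
  unfold cellC
  obtain ⟨e1, e2⟩ := blk_idx (t := t) hr
  rw [if_pos h1, e1, e2]

theorem ent_tl (wdc : WdcStmt) (F : FinC n m x.length d A v) (hpm : pm x = m)
    {p : List (Matrix (Fin m) (Fin m) ℤ) × ℕ × (Fin m → ℤ) × (Fin n → ℤ) × (Fin m → ℤ)}
    (hp : p ∈ CS A v d x.length) {r j : ℕ} (hr : r < 4) (hj : j < m) :
    ent x (wrdC (wid x) A (4 * (d : ℤ)) p) p.1.length r j =
      tl p.2.2.1 p.2.2.2.1 p.2.2.2.2 p.2.1 r j := by
  rw [ent_wrdC wdc F hpm hp (by omega) hj]
  unfold cellC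
  rw [if_neg (by omega), Nat.add_sub_cancel_left]

theorem VbC_iff (x y : Word) : VbC (x, y) = true ↔ VpC x y := by
  classical
  unfold VbC
  exact decide_eq_true_iff

theorem kC_eq {y : Word} {k : ℕ} (hm : 0 < m) (hpm : pm x = m)
    (h : y.length = (k * (3 * m + 1) + 4) * (m * (wid x + 1))) : kC x y = k := by
  unfold kC
  rw [hpm, h, Nat.mul_div_cancel _ (by positivity), Nat.add_sub_cancel,
    Nat.mul_div_cancel _ (by omega)]

theorem witC_sub (wdc : WdcStmt) (F : FinC n m x.length d A v) (hpn : pn x = n + 1)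
    (hpm : pm x = m) (hpD : pD x = d) (hpa : ∀ (i : Fin n) (j : Fin m), pa x i j = A i j)
    (hpv : ∀ j : Fin m, pa x n j = v j) {y : Word} (hy : VpC x y) :
    ∃ p ∈ CS A v d x.length, wrdC (wid x) A (4 * (d : ℤ)) p = y := by
  obtain ⟨hm, -, h3, h4, h5⟩ := hy
  rw [hpm] at hm h4
  rw [hpn, hpm, hpD, Nat.add_sub_cancel] at h5
  generalize hk : kC x y = k at h4 h5
  obtain ⟨h6, h7, h8, c, hc, h9⟩ := (chkC_iff F.detY hm hpa hpv).1 h5
  -- all cells are in the range
  have h4' : y.length = (k * (3 * m + 1) + 4) * m * (wid x + 1) := by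
    rw [h4]
    ring
  obtain ⟨g1, g2⟩ := (wdc ((k * (3 * m + 1) + 4) * m) (wid x)).2.2 y h4'
  have hr : ∀ t r j, t * (3 * m + 1) + r < k * (3 * m + 1) + 4 → j < m →
      Rng (wid x) (ent x y t r j) := by
    intro t r j ht hj
    unfold ent
    rw [hpm]
    exact g2 _ (row_lt ht hj)
  have eB : ∀ t < k, (lst m k (ent x y)).getD t 0 = Bm m (ent x y) t := fun t ht => getD_lst ht
  have hQ := lst_chq F h6
  have e4 : ((4 * d : ℕ) : ℤ) = 4 * (d : ℤ) := by push_cast; ring
  have hCS : IsCS A v d x.length (lst m k (ent x y)) c (uv m (ent x y k)) (zv n (ent x y k))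
      (yv m (ent x y k)) := by
    constructor
    · exact hQ.hnf
    · exact hQ.chain
    · rw [length_lst]; exact hc
    · rw [eB c hc]
      refine ⟨(h6 c hc).hnf, rowsC_le F h6 hc, ?_⟩
      rw [e4]
      exact h9.pq
    · intro t ht
      rw [eB c hc, eB t (by omega)]
      unfold phiLt
      rw [e4]
      exact h9.before t ht
    · intro t ht ht'
      rw [length_lst] at ht'
      rw [eB c hc, eB t ht']
      unfold phiLe
      rw [e4]
      exact h9.after t ht ht'
    · rw [eB c hc]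
      exact ⟨h9.mem, h9.red, h9.sol, h9.dist⟩
    · intro j
      exact hr k 0 j (by omega) j.2
    · intro j
      refine hr k 1 j (by omega) ?_
      have := F.nm
      omega
    · intro j
      exact hr k 2 j (by omega) j.2
  refine ⟨⟨lst m k (ent x y), c, uv m (ent x y k), zv n (ent x y k), yv m (ent x y k)⟩, hCS, ?_⟩
  have hall := F.allpq ⟨lst m k (ent x y), c, uv m (ent x y k), zv n (ent x y k),
    yv m (ent x y k)⟩ hCS
  unfold wrdC
  simp only [length_lst]
  conv_rhs => rw [g1]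
  unfold tw
  refine List.flatMap_congr fun i hi => ?_
  rw [List.mem_range] at hi
  have hR : i / m < k * (3 * m + 1) + 4 := by
    rw [Nat.div_lt_iff_lt_mul hm]
    exact hi
  have hj : i % m < m := Nat.mod_lt _ hm
  have hi' : i / m * m + i % m = i := Nat.div_add_mod' i m
  simp only
  congr 1
  unfold cellC
  rw [length_lst]
  split_ifs with h10
  · have t1 : i / m / (3 * m + 1) < k := by
      rw [Nat.div_lt_iff_lt_mul (by omega)]
      exact h10
    have t2 : i / m % (3 * m + 1) < 3 * m + 1 := Nat.mod_lt _ (by omega)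
    have t3 : i / m / (3 * m + 1) * (3 * m + 1) + i / m % (3 * m + 1) = i / m :=
      Nat.div_add_mod' _ _
    rw [← eq_canC F h6 hall t1 t2 hj]
    unfold ent
    rw [hpm, t3, hi']
  · have t1 : i / m - k * (3 * m + 1) < 4 := by omega
    have t2 : ent x y k (i / m - k * (3 * m + 1)) (i % m) = num y (i * (wid x + 1)) (wid x + 1) := by
      unfold ent
      rw [hpm]
      have : k * (3 * m + 1) + (i / m - k * (3 * m + 1)) = i / m := by omega
      rw [this, hi']
    rw [← t2]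
    generalize i / m - k * (3 * m + 1) = r at t1
    unfold tl
    split_ifs with s0 s1 s2 s3
    · rw [s0]
      unfold nv uv
      rw [dif_pos hj]
    · rw [s1]
      unfold nv zv
      split_ifs with s4
      · rfl
      · exact (h7 _ hj (by omega)).symm
    · rw [s2]
      unfold nv yv
      rw [dif_pos hj]
    · have : r = 3 := by omega
      rw [this, s3]
      exact h9.cell.symm
    · have : r = 3 := by omega
      rw [this]
      exact (h8 _ hj (by omega)).symm

theorem witC_sup (wdc : WdcStmt) (F : FinC n m x.length d A v) (hm : 0 < m) (hpn : pn x = n + 1)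
    (hpm : pm x = m) (hpD : pD x = d) (hpa : ∀ (i : Fin n) (j : Fin m), pa x i j = A i j)
    (hpv : ∀ j : Fin m, pa x n j = v j)
    {p : List (Matrix (Fin m) (Fin m) ℤ) × ℕ × (Fin m → ℤ) × (Fin n → ℤ) × (Fin m → ℤ)}
    (hp : p ∈ CS A v d x.length) : VpC x (wrdC (wid x) A (4 * (d : ℤ)) p) := by
  have h1 : (wrdC (wid x) A (4 * (d : ℤ)) p).length =
      (p.1.length * (3 * m + 1) + 4) * (m * (wid x + 1)) := by
    unfold wrdC
    rw [(wdc _ _).1]
    ring
  have h2 := kC_eq hm hpm h1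
  have eB : ∀ t < p.1.length, Bm m (ent x (wrdC (wid x) A (4 * (d : ℤ)) p)) t = p.1.getD t 0 := by
    intro t ht
    rw [← Bm_can A (4 * (d : ℤ)) p.1 t]
    exact Bm_congr (k := p.1.length) (fun t ht r hr j hj => (ent_blk wdc F hpm hp ht hr hj).symm) ht
  have e0 : uv m (ent x (wrdC (wid x) A (4 * (d : ℤ)) p) p.1.length) = p.2.2.1 := by
    ext j
    simp only [uv]
    rw [ent_tl wdc F hpm hp (by omega) j.2]
    unfold tl
    rw [if_pos rfl, nv_fin]
  have e1 : zv n (ent x (wrdC (wid x) A (4 * (d : ℤ)) p) p.1.length) = p.2.2.2.1 := by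
    ext j
    simp only [zv]
    rw [ent_tl wdc F hpm hp (by omega) (lt_of_lt_of_le j.2 F.nm)]
    unfold tl
    rw [if_neg (by omega), if_pos rfl, nv_fin]
  have e2 : yv m (ent x (wrdC (wid x) A (4 * (d : ℤ)) p) p.1.length) = p.2.2.2.2 := by
    ext j
    simp only [yv]
    rw [ent_tl wdc F hpm hp (by omega) j.2]
    unfold tl
    rw [if_neg (by omega), if_neg (by omega), if_pos rfl, nv_fin]
  have e4 : ((4 * d : ℕ) : ℤ) = 4 * (d : ℤ) := by push_cast; ring
  have c1 : 0 < pm x := by rw [hpm]; exact hm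
  have c2 : 0 < pn x := by rw [hpn]; omega
  have c3 : pn x - 1 ≤ pm x := by
    rw [hpn, hpm, Nat.add_sub_cancel]
    exact F.nm
  refine ⟨c1, c2, c3, by rw [h2, hpm]; exact h1, ?_⟩
  rw [h2, hpn, hpm, hpD, Nat.add_sub_cancel]
  refine (chkC_iff F.detY hm hpa hpv).2 ⟨fun t ht => ?_, ?_, ?_, p.2.1, hp.lt, ?_⟩
  · refine blkC_congr (fun t ht r hr j hj => ?_) ht
      (blkC_can F (Chq_of hp) (F.allpq p hp) ht) F.nm
    exact (ent_blk wdc F hpm hp ht hr hj).symm
  · intro j hj hnj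
    rw [ent_tl wdc F hpm hp (by omega) hj]
    unfold tl
    rw [if_neg (by omega), if_pos rfl]
    unfold nv
    rw [dif_neg (by omega)]
  · intro j hj hj0
    rw [ent_tl wdc F hpm hp (by omega) hj]
    unfold tl
    rw [if_neg (by omega), if_neg (by omega), if_neg (by omega), if_neg (by omega)]
  · constructor
    · rw [ent_tl wdc F hpm hp (by omega) hm]
      unfold tl
      rw [if_neg (by omega), if_neg (by omega), if_neg (by omega), if_pos rfl]
    · rw [eB _ hp.lt, ← e4]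
      exact hp.pq.2.2
    · intro t ht
      have := hp.lt
      rw [eB _ hp.lt, eB t (by omega), ← e4]
      exact hp.before t ht
    · intro t ht ht'
      rw [eB _ hp.lt, eB t ht', ← e4]
      exact hp.after t ht ht'
    · rw [e0, e1]
      exact hp.tail.mem
    · rw [e0, eB _ hp.lt]
      exact hp.tail.red
    · rw [e0, e2, eB _ hp.lt]
      exact hp.tail.sol
    · rw [e0, e2, eB _ hp.lt]
      exact hp.tail.dist

theorem witC_eq (wdc : WdcStmt) (F : FinC n m x.length d A v) (hm : 0 < m) (hpn : pn x = n + 1)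
    (hpm : pm x = m) (hpD : pD x = d) (hpa : ∀ (i : Fin n) (j : Fin m), pa x i j = A i j)
    (hpv : ∀ j : Fin m, pa x n j = v j) (q : Polynomial ℕ)
    (hq : ∀ p ∈ CS A v d x.length, (wrdC (wid x) A (4 * (d : ℤ)) p).length ≤ q.eval x.length) :
    witnesses VbC q x = wrdC (wid x) A (4 * (d : ℤ)) '' CS A v d x.length := by
  ext y
  constructor
  · rintro ⟨-, hy⟩
    rw [VbC_iff] at hy
    obtain ⟨p, hp, e⟩ := witC_sub wdc F hpn hpm hpD hpa hpv hy
    exact ⟨p, hp, e⟩
  · rintro ⟨p, hp, rfl⟩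
    exact ⟨hq p hp, (VbC_iff _ _).2 (witC_sup wdc F hm hpn hpm hpD hpa hpv hp)⟩

theorem wrdC_inj (wdc : WdcStmt) (F : FinC n m x.length d A v) (hm : 0 < m) (hpm : pm x = m) :
    Set.InjOn (wrdC (wid x) A (4 * (d : ℤ))) (CS A v d x.length) := by
  intro p hp p' hp' h
  have h1 : p.1.length = p'.1.length := by
    have h2 := congrArg List.length h
    unfold wrdC at h2
    rw [(wdc _ _).1, (wdc _ _).1] at h2
    have h3 := Nat.eq_of_mul_eq_mul_right (Nat.succ_pos _) h2
    have h4 := Nat.eq_of_mul_eq_mul_right hm h3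
    have h5 := Nat.add_right_cancel h4
    exact Nat.eq_of_mul_eq_mul_right (by omega) h5
  have e1 : p.1 = p'.1 := by
    refine List.ext_getElem h1 fun t ht ht' => ?_
    have e1 := Bm_can A (4 * (d : ℤ)) p.1 t
    have e2 := Bm_can A (4 * (d : ℤ)) p'.1 t
    rw [← List.getD_eq_getElem p.1 0 ht, ← List.getD_eq_getElem p'.1 0 ht', ← e1, ← e2]
    ext i j
    simp only [Bm, Matrix.of_apply]
    rw [← ent_blk wdc F hpm hp ht (by omega) j.2, h, ent_blk wdc F hpm hp' ht' (by omega) j.2]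
  have key : ∀ r j, r < 4 → j < m → tl p.2.2.1 p.2.2.2.1 p.2.2.2.2 p.2.1 r j =
      tl p'.2.2.1 p'.2.2.2.1 p'.2.2.2.2 p'.2.1 r j := by
    intro r j hr hj
    rw [← ent_tl wdc F hpm hp hr hj, ← ent_tl wdc F hpm hp' hr hj, h, h1]
  have e2 : p.2.1 = p'.2.1 := by
    have := key 3 0 (by omega) hm
    simp only [tl] at this
    norm_num at this
    exact this
  have e3 : p.2.2.1 = p'.2.2.1 := by
    ext j
    have := key 0 j (by omega) j.2
    simp only [tl, if_true, nv_fin] at this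
    exact this
  have e5 : p.2.2.2.1 = p'.2.2.2.1 := by
    ext j
    have := key 1 j (by omega) (lt_of_lt_of_le j.2 F.nm)
    simp only [tl, nv_fin] at this
    simpa using this
  have e6 : p.2.2.2.2 = p'.2.2.2.2 := by
    ext j
    have := key 2 j (by omega) j.2
    simp only [tl, nv_fin] at this
    simpa using this
  exact Prod.ext e1 (Prod.ext e2 (Prod.ext e3 (Prod.ext e5 e6)))

end

end Pool.Agent.LAT.H33
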