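import Pool.Agent.Helper33_LAT.Chk
import Pool.Agent.LAT.StmtsF

/-!
# Squad LAT: the canonical table of a chain
-/

set_option autoImplicit false

namespace Pool.Agent.LAT.H33

open Pool.Agent.PAR Matrix

noncomputable section

variable {n m : ℕ}

open Classical in
/-- the canonical matrix `Y` -/
def Yc (B : Matrix (Fin m) (Fin m) ℤ) : Matrix (Fin m) (Fin m) ℤ :=
  if h : ∃ Y, IsTri (GG B) Y then h.choose else 0

open Classical in
/-- the canonical matrix `X` -/
def Xc (B B' : Matrix (Fin m) (Fin m) ℤ) : Matrix (Fin m) (Fin m) ℤ :=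
  if h : ∃ X : Matrix (Fin m) (Fin m) ℤ, B = X * B' ∧ ∀ i j, B' j j = 0 → X i j = 0 then h.choose
  else 0

open Classical in
/-- the canonical matrix `X` of the last block -/
def Xa (A : Matrix (Fin n) (Fin m) ℤ) (B : Matrix (Fin m) (Fin m) ℤ) : Matrix (Fin m) (Fin n) ℤ :=
  if h : ∃ X : Matrix (Fin m) (Fin n) ℤ, B = X * A then h.choose else 0

/-- the entries of a matrix with natural numbers as indices -/
def nx {r c : ℕ} (M : Matrix (Fin r) (Fin c) ℤ) (i j : ℕ) : ℤ :=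
  if h : i < r ∧ j < c then M ⟨i, h.1⟩ ⟨j, h.2⟩ else 0

theorem nx_fin {r c : ℕ} (M : Matrix (Fin r) (Fin c) ℤ) (i : Fin r) (j : Fin c) :
    nx M i j = M i j := by
  unfold nx
  rw [dif_pos ⟨i.2, j.2⟩]

/-- the canonical table of a chain -/
def can (A : Matrix (Fin n) (Fin m) ℤ) (D : ℤ) (l : List (Matrix (Fin m) (Fin m) ℤ))
    (t r j : ℕ) : ℤ :=
  if r < m then nx (l.getD t 0) r j
  else if r < 2 * m then nx (Yc (l.getD t 0)) (r - m) j
  else if r < 3 * m then
    (if t + 1 < l.length then nx (Xc (l.getD t 0) (l.getD (t + 1) 0)) (r - 2 * m) j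
     else nx (Xa A (l.getD t 0)) (r - 2 * m) j)
  else PB D (l.getD t 0) j

theorem Yc_spec {B : Matrix (Fin m) (Fin m) ℤ} (h : ∃ Y, IsTri (GG B) Y) :
    IsTri (GG B) (Yc B) := by
  unfold Yc
  rw [dif_pos h]
  exact h.choose_spec

theorem Xc_spec {B B' : Matrix (Fin m) (Fin m) ℤ}
    (h : ∃ X : Matrix (Fin m) (Fin m) ℤ, B = X * B' ∧ ∀ i j, B' j j = 0 → X i j = 0) :
    B = Xc B B' * B' ∧ ∀ i j, B' j j = 0 → Xc B B' i j = 0 := by
  unfold Xc
  rw [dif_pos h]
  exact h.choose_spec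

theorem Xa_spec {A : Matrix (Fin n) (Fin m) ℤ} {B : Matrix (Fin m) (Fin m) ℤ}
    (h : ∃ X : Matrix (Fin m) (Fin n) ℤ, B = X * A) : B = Xa A B * A := by
  unfold Xa
  rw [dif_pos h]
  exact h.choose_spec

variable (A : Matrix (Fin n) (Fin m) ℤ) (D : ℤ) (l : List (Matrix (Fin m) (Fin m) ℤ))

theorem Bm_can (t : ℕ) : Bm m (can A D l) t = l.getD t 0 := by
  ext i j
  simp only [Bm, Matrix.of_apply, can]
  rw [if_pos i.2, nx_fin]

theorem Ym_can (t : ℕ) : Ym m (can A D l) t = Yc (l.getD t 0) := by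
  ext i j
  simp only [Ym, Matrix.of_apply, can]
  rw [if_neg (by omega), if_pos (by omega), Nat.add_sub_cancel_left, nx_fin]

theorem Xm_can {t : ℕ} (ht : t + 1 < l.length) :
    Xm m (can A D l) t = Xc (l.getD t 0) (l.getD (t + 1) 0) := by
  ext i j
  simp only [Xm, Matrix.of_apply, can]
  rw [if_neg (by omega), if_neg (by omega), if_pos (by omega), if_pos ht,
    Nat.add_sub_cancel_left, nx_fin]

theorem Xn_can {t : ℕ} (ht : ¬ t + 1 < l.length) :
    Xn n m (can A D l) t = Xa A (l.getD t 0) := by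
  ext i j
  simp only [Xn, Matrix.of_apply, can]
  rw [if_neg (by omega), if_neg (by omega), if_pos (by omega), if_neg ht,
    Nat.add_sub_cancel_left, nx_fin]

theorem pow_can (t j : ℕ) : can A D l t (3 * m) j = PB D (l.getD t 0) j := by
  simp only [can]
  rcases Nat.eq_zero_or_pos m with rfl | hm
  · simp
  · rw [if_neg (by omega), if_neg (by omega), if_neg (by omega)]

variable {A D l}

theorem PP_getD {d : ℕ} (hl : l ∈ chL (rows A) d) {t : ℕ} (ht : t < l.length) :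
    PP (rows A) d (l.getD t 0) := by
  rw [List.getD_eq_getElem _ _ ht]
  exact hl.2.1 _ (List.getElem_mem ht)

theorem lt_getD {d : ℕ} (hl : l ∈ chL (rows A) d) {t u : ℕ} (htu : t < u) (hu : u < l.length) :
    rows (l.getD t 0) < rows (l.getD u 0) := by
  rw [List.getD_eq_getElem _ _ hu, List.getD_eq_getElem _ _ (htu.trans hu)]
  exact (List.pairwise_iff_getElem.1 hl.2.2) t u (htu.trans hu) hu htu

/-- the canonical table is accepted -/
theorem blk_can {s d : ℕ} (F : FinM n m s d A) (hl : l ∈ chL (rows A) d) {t : ℕ}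
    (ht : t < l.length) : Blk n m d A l.length (can A d l) t := by
  have hP := PP_getD hl ht
  have hY := Yc_spec (let ⟨Y, h, _⟩ := F.exY _ hP; ⟨Y, h⟩)
  have eB := Bm_can A (d : ℤ) l t
  have eY := Ym_can A (d : ℤ) l t
  constructor
  · rw [eB]; exact hP.1
  · rw [eB]; exact hP.2.1
  · rw [eB, eY]; exact hY
  · intro i _
    rw [pow_can, eB]
  · intro i hi
    rw [eB, eY, F.detY _ hP.1 _ hY i hi]
    exact hP.2.2.2
  · intro ht'
    have hP' := PP_getD hl ht'
    rw [Xm_can A _ l ht', eB, Bm_can]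
    exact (Xc_spec ((F.inc _ _ hP'.1).1 (lt_getD hl (Nat.lt_succ_self t) ht').le)).1
  · intro ht'
    have hP' := PP_getD hl ht'
    rw [Xm_can A _ l ht', Bm_can]
    exact (Xc_spec ((F.inc _ _ hP'.1).1 (lt_getD hl (Nat.lt_succ_self t) ht').le)).2
  · intro ht' h0
    rw [eB, Bm_can] at h0
    have h1 := lt_getD hl (Nat.lt_succ_self t) ht'
    rw [h0] at h1
    exact lt_irrefl _ h1
  · intro ht'
    rw [Xn_can A _ l (by omega), eB]
    exact Xa_spec ((F.ina _).1 hP.2.2.1)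
  · intro ht' i hi j hj hnj
    simp only [can]
    rw [if_neg (by omega), if_neg (by omega), if_pos (by omega), if_neg (by omega)]
    unfold nx
    rw [dif_neg (by omega)]

theorem PB_eq {d : ℕ} (B : Matrix (Fin m) (Fin m) ℤ) (i : ℕ) :
    ∃ c ≤ m, PB (d : ℤ) B i = (d : ℤ) ^ c := by
  refine ⟨((Finset.univ.filter (fun j : Fin m => (j : ℕ) < i)).filter
    (fun j => 0 < B j j)).card, ?_, ?_⟩
  · refine (Finset.card_le_univ _).trans ?_
    rw [Fintype.card_fin]
  · unfold PB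
    rw [Finset.prod_ite, Finset.prod_const, Finset.prod_const_one, mul_one]

theorem nx_lt {r c : ℕ} (M : Matrix (Fin r) (Fin c) ℤ) (b : ℤ) (hb : 0 < b)
    (h : ∀ i j, |M i j| < b) (i j : ℕ) : |nx M i j| < b := by
  unfold nx
  split_ifs with h'
  · exact h _ _
  · rw [abs_zero]; exact hb

/-- the entries of the canonical table are bounded -/
theorem can_lt {s d : ℕ} (F : FinM n m s d A) (hl : l ∈ chL (rows A) d) {t : ℕ}
    (ht : t < l.length) (r j : ℕ) : |can A d l t r j| < 2 ^ ((s + 2) ^ 8) := by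
  have hP := PP_getD hl ht
  have h2 : (0 : ℤ) < 2 ^ ((s + 2) ^ 8) := by positivity
  obtain ⟨Y, hY, hYb⟩ := F.exY _ hP
  have hY' := Yc_spec ⟨Y, hY⟩
  have eY : Yc (l.getD t 0) = Y := F.unY _ hP.1 _ _ hY' hY
  unfold can
  split_ifs with h3 h4 h5 h6
  · exact nx_lt _ _ h2 (F.bB _ hP) _ _
  · rw [eY]
    exact nx_lt _ _ h2 hYb _ _
  · have hP' := PP_getD hl h6
    have hX := Xc_spec ((F.inc _ _ hP'.1).1 (lt_getD hl (Nat.lt_succ_self t) h6).le)
    exact nx_lt _ _ h2 (F.bX _ _ hP hP' _ hX.1 hX.2) _ _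
  · exact nx_lt _ _ h2 (F.bA _ hP _ (Xa_spec ((F.ina _).1 hP.2.2.1))) _ _
  · obtain ⟨c, hc, e⟩ := PB_eq (d := d) (l.getD t 0) j
    rw [e, abs_of_nonneg (by positivity)]
    exact F.pw c hc

end

end Pool.Agent.LAT.H33
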