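import Pool.Agent.LAT.StmtsW
import Pool.Agent.LAT.StmtsM

/-!
# Squad LAT: tables and matrices
-/

set_option autoImplicit false

namespace Pool.Agent.LAT.H33

open Pool.Agent.PAR Matrix

noncomputable section

/-- the matrix `B` of block `t` -/
def Bm (m : ℕ) (e : ℕ → ℕ → ℕ → ℤ) (t : ℕ) : Matrix (Fin m) (Fin m) ℤ :=
  Matrix.of fun i j => e t i j

/-- the matrix `Y` of block `t` -/
def Ym (m : ℕ) (e : ℕ → ℕ → ℕ → ℤ) (t : ℕ) : Matrix (Fin m) (Fin m) ℤ :=
  Matrix.of fun i j => e t (m + i) j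

/-- the matrix `X` of block `t` -/
def Xm (m : ℕ) (e : ℕ → ℕ → ℕ → ℤ) (t : ℕ) : Matrix (Fin m) (Fin m) ℤ :=
  Matrix.of fun i j => e t (2 * m + i) j

theorem gme_eq (m : ℕ) (e : ℕ → ℕ → ℕ → ℤ) (t : ℕ) (i l : Fin m) :
    gme m e t i l = GG (Bm m e t) i l := by
  unfold gme GG EE
  rw [Matrix.add_apply, Matrix.mul_apply, Finset.sum_range]
  simp only [Bm, Matrix.transpose_apply, Matrix.of_apply, Matrix.diagonal_apply, Fin.ext_iff]
  congr 1
  by_cases h : (i : ℕ) = l
  · simp [h]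
  · simp [h]

theorem yge_eq (m : ℕ) (e : ℕ → ℕ → ℕ → ℤ) (t : ℕ) (i l : Fin m) :
    yge m e t i l = (Ym m e t * GG (Bm m e t)) i l := by
  unfold yge
  rw [Matrix.mul_apply, Finset.sum_range]
  refine Finset.sum_congr rfl fun s _ => ?_
  rw [gme_eq]
  rfl

variable {n m k : ℕ} {D : ℤ} {a : ℕ → ℕ → ℤ} {e : ℕ → ℕ → ℕ → ℤ}

theorem hnf_of (h : Chk n m D a k e) {t : ℕ} (ht : t < k) : IsHNF (Bm m e t) where
  tri := fun i j hij => h.tri t ht j j.2 i hij
  nonneg := fun i => h.diag t ht i i.2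
  zero := fun i hi j => h.zero t ht i i.2 j j.2 hi
  red := fun i j hij => h.red t ht i i.2 j hij

theorem ne_of (h : Chk n m D a k e) {t : ℕ} (ht : t < k) : Bm m e t ≠ 0 := by
  obtain ⟨i, hi, h1⟩ := h.ne t ht
  intro h0
  have := congrFun (congrFun h0 ⟨i, hi⟩) ⟨i, hi⟩
  simp only [Bm, Matrix.of_apply, Matrix.zero_apply] at this
  omega

theorem tri_of (h : Chk n m D a k e) {t : ℕ} (ht : t < k) :
    IsTri (GG (Bm m e t)) (Ym m e t) where
  low := fun i j hij => h.ylow t ht j j.2 i hij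
  up := fun i j hij => by
    rw [← yge_eq]
    exact h.ytri t ht i i.2 j hij
  zero := fun i hi => by
    have := h.yone t ht (lt_of_le_of_lt (Nat.zero_le _) i.2)
    simp only [Ym, Matrix.of_apply, hi, Nat.add_zero]
    exact this
  step := fun i j hij => by
    rw [← yge_eq]
    have h1 := h.ystep t ht i i.2 (by omega)
    simp only [Ym, Matrix.of_apply, hij]
    exact h1

/-- the product of the first `i` factors `D` or `1` -/
def PB (D : ℤ) (B : Matrix (Fin m) (Fin m) ℤ) (i : ℕ) : ℤ :=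
  ∏ j ∈ Finset.univ.filter (fun j : Fin m => (j : ℕ) < i), if 0 < B j j then D else 1

theorem PB_zero (D : ℤ) (B : Matrix (Fin m) (Fin m) ℤ) : PB D B 0 = 1 := by
  unfold PB
  rw [Finset.filter_false_of_mem (fun j _ => by omega), Finset.prod_empty]

theorem PB_succ (D : ℤ) (B : Matrix (Fin m) (Fin m) ℤ) (i : Fin m) :
    PB D B ((i : ℕ) + 1) = PB D B i * if 0 < B i i then D else 1 := by
  unfold PB
  have e : Finset.univ.filter (fun j : Fin m => (j : ℕ) < (i : ℕ) + 1) =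
      insert i (Finset.univ.filter (fun j : Fin m => (j : ℕ) < i)) := by
    ext j
    simp only [Finset.mem_filter, Finset.mem_univ, true_and, Finset.mem_insert, Fin.ext_iff]
    omega
  rw [e, Finset.prod_insert (by simp), mul_comm]

theorem PB_last (D : ℤ) (B : Matrix (Fin m) (Fin m) ℤ) (hB : IsHNF B) :
    PB D B m = D ^ piv B := by
  unfold PB piv
  rw [Finset.filter_true_of_mem (fun j _ => j.2), Finset.prod_ite, Finset.prod_const,
    Finset.prod_const_one, mul_one]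
  congr 2
  ext j
  simp only [Finset.mem_filter, Finset.mem_univ, true_and]
  have := hB.nonneg j
  constructor
  · intro h
    omega
  · intro h
    omega

theorem pow_of (h : Chk n m D a k e) {t : ℕ} (ht : t < k) : ∀ i : ℕ, i < m →
    e t (3 * m) i = PB D (Bm m e t) i := by
  intro i
  induction i with
  | zero =>
    intro hi
    rw [h.pone t ht hi, PB_zero]
  | succ i ih =>
    intro hi
    rw [h.pstep t ht i (by omega) hi, ih (by omega)]
    exact (PB_succ D (Bm m e t) ⟨i, by omega⟩).symm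

theorem det_of (h : Chk n m D a k e) {t : ℕ} (ht : t < k) (i : Fin m) (hi : (i : ℕ) + 1 = m) :
    (Ym m e t * GG (Bm m e t)) i i ≤ D ^ piv (Bm m e t) := by
  rw [← yge_eq, ← PB_last D _ (hnf_of h ht)]
  have h1 := h.det t ht i i.2 hi
  rw [pow_of h ht i i.2] at h1
  have h2 := PB_succ D (Bm m e t) i
  rw [hi] at h2
  rw [h2]
  exact h1

/-- the matrix `X` of the last block, without the zero columns -/
def Xn (n m : ℕ) (e : ℕ → ℕ → ℕ → ℤ) (t : ℕ) : Matrix (Fin m) (Fin n) ℤ :=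
  Matrix.of fun i j => e t (2 * m + i) j

/-- the conditions on block `t`, in terms of matrices -/
structure Blk (n m : ℕ) (D : ℤ) (A : Matrix (Fin n) (Fin m) ℤ) (k : ℕ) (e : ℕ → ℕ → ℕ → ℤ)
    (t : ℕ) : Prop where
  hnf : IsHNF (Bm m e t)
  ne : Bm m e t ≠ 0
  tri : IsTri (GG (Bm m e t)) (Ym m e t)
  pow : ∀ i < m, e t (3 * m) i = PB D (Bm m e t) i
  det : ∀ i : Fin m, (i : ℕ) + 1 = m → (Ym m e t * GG (Bm m e t)) i i ≤ D ^ piv (Bm m e t)
  link : t + 1 < k → Bm m e t = Xm m e t * Bm m e (t + 1)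
  linkz : t + 1 < k → ∀ i j, Bm m e (t + 1) j j = 0 → Xm m e t i j = 0
  strict : t + 1 < k → Bm m e t ≠ Bm m e (t + 1)
  last : t + 1 = k → Bm m e t = Xn n m e t * A
  lastz : t + 1 = k → ∀ i < m, ∀ l < m, n ≤ l → e t (2 * m + i) l = 0

theorem blk_of_chk {A : Matrix (Fin n) (Fin m) ℤ} (ha : ∀ (i : Fin n) (j : Fin m), a i j = A i j)
    (h : Chk n m D a k e) {t : ℕ} (ht : t < k) : Blk n m D A k e t where
  hnf := hnf_of h ht
  ne := ne_of h ht
  tri := tri_of h ht
  pow := pow_of h ht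
  det := det_of h ht
  link := fun ht' => by
    ext i j
    have h1 := h.link t ht ht' i i.2 j j.2
    rw [Finset.sum_range] at h1
    rw [Matrix.mul_apply]
    exact h1.symm
  linkz := fun ht' i j hj => h.linkz t ht ht' i i.2 j j.2 hj
  strict := fun ht' h0 => by
    obtain ⟨i, hi, j, hj, h1⟩ := h.strict t ht ht'
    exact h1 (congrFun (congrFun h0 ⟨i, hi⟩) ⟨j, hj⟩)
  last := fun ht' => by
    ext i j
    have h1 := h.last t ht ht' i i.2 j j.2
    rw [Finset.sum_range] at h1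
    rw [Matrix.mul_apply]
    have h2 : ∀ l : Fin n, e t (2 * m + i) l * a l j = Xn n m e t i l * A l j := fun l => by
      rw [ha]
      rfl
    rw [Finset.sum_congr rfl fun l _ => h2 l] at h1
    exact h1.symm
  lastz := h.lastz t ht

theorem chk_of_blk {A : Matrix (Fin n) (Fin m) ℤ} (ha : ∀ (i : Fin n) (j : Fin m), a i j = A i j)
    (h : ∀ t < k, Blk n m D A k e t) : Chk n m D a k e where
  tri := fun t ht j hj i hij => (h t ht).hnf.tri ⟨i, by omega⟩ ⟨j, hj⟩ hij
  diag := fun t ht i hi => (h t ht).hnf.nonneg ⟨i, hi⟩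
  zero := fun t ht i hi j hj h0 => (h t ht).hnf.zero ⟨i, hi⟩ h0 ⟨j, hj⟩
  red := fun t ht i hi j hij => (h t ht).hnf.red ⟨i, hi⟩ ⟨j, by omega⟩ hij
  ne := fun t ht => by
    by_contra hc
    push Not at hc
    refine (h t ht).ne ?_
    ext i j
    have h1 := hc i i.2
    have h2 := (h t ht).hnf.nonneg i
    simp only [Bm, Matrix.of_apply] at h2
    exact (h t ht).hnf.zero i (le_antisymm h1 h2) j
  ylow := fun t ht j hj i hij => (h t ht).tri.low ⟨i, by omega⟩ ⟨j, hj⟩ hij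
  ytri := fun t ht i hi j hij => by
    have h1 := (h t ht).tri.up ⟨i, hi⟩ ⟨j, by omega⟩ hij
    rw [← yge_eq] at h1
    exact h1
  yone := fun t ht hm => (h t ht).tri.zero ⟨0, hm⟩ rfl
  ystep := fun t ht i hi hi' => by
    have h1 := (h t ht).tri.step ⟨i, hi⟩ ⟨i + 1, hi'⟩ rfl
    rw [← yge_eq] at h1
    exact h1
  pone := fun t ht hm => by
    rw [(h t ht).pow 0 hm, PB_zero]
  pstep := fun t ht i hi hi' => by
    rw [(h t ht).pow _ hi', (h t ht).pow _ hi]
    exact PB_succ D (Bm m e t) ⟨i, hi⟩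
  det := fun t ht i hi hi' => by
    have h1 := (h t ht).det ⟨i, hi⟩ hi'
    rw [← yge_eq, ← PB_last D _ (h t ht).hnf] at h1
    have h2 := PB_succ D (Bm m e t) ⟨i, hi⟩
    simp only at h2
    rw [hi'] at h2
    rw [h2] at h1
    rw [(h t ht).pow i hi]
    exact h1
  link := fun t ht ht' i hi j hj => by
    have h1 := congrFun (congrFun ((h t ht).link ht') ⟨i, hi⟩) ⟨j, hj⟩
    rw [Matrix.mul_apply] at h1
    rw [Finset.sum_range]
    exact h1.symm
  linkz := fun t ht ht' i hi l hl h0 => (h t ht).linkz ht' ⟨i, hi⟩ ⟨l, hl⟩ h0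
  last := fun t ht ht' i hi j hj => by
    have h1 := congrFun (congrFun ((h t ht).last ht') ⟨i, hi⟩) ⟨j, hj⟩
    rw [Matrix.mul_apply] at h1
    rw [Finset.sum_range]
    have h2 : ∀ l : Fin n, e t (2 * m + i) l * a l j = Xn n m e t ⟨i, hi⟩ l * A l ⟨j, hj⟩ :=
      fun l => by
      rw [ha l ⟨j, hj⟩]
      rfl
    rw [Finset.sum_congr rfl fun l _ => h2 l]
    exact h1.symm
  lastz := fun t ht ht' => (h t ht).lastz ht'
  strict := fun t ht ht' => by
    by_contra hc
    push Not at hc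
    refine (h t ht).strict ht' ?_
    ext i j
    exact hc i i.2 j j.2

end

end Pool.Agent.LAT.H33
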