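import Pool.Agent.Helper33_LAT.Can

/-!
# Squad LAT: accepted tables are canonical tables of chains
-/

set_option autoImplicit false

namespace Pool.Agent.LAT.H33

open Pool.Agent.PAR Matrix

noncomputable section

variable {n m k : ℕ} {A : Matrix (Fin n) (Fin m) ℤ} {e e' : ℕ → ℕ → ℕ → ℤ}

/-- the list of the matrices of the blocks -/
def lst (m k : ℕ) (e : ℕ → ℕ → ℕ → ℤ) : List (Matrix (Fin m) (Fin m) ℤ) :=
  (List.range k).map (Bm m e)

theorem length_lst : (lst m k e).length = k := by
  unfold lst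
  rw [List.length_map, List.length_range]

theorem getD_lst {t : ℕ} (ht : t < k) : (lst m k e).getD t 0 = Bm m e t := by
  unfold lst
  rw [List.getD_eq_getElem _ _ (by rw [List.length_map, List.length_range]; exact ht),
    List.getElem_map, List.getElem_range]

variable {s d : ℕ}

theorem rows_le_next (F : FinM n m s d A) (h : ∀ t < k, Blk n m d A k e t) {t : ℕ}
    (ht : t + 1 < k) : rows (Bm m e t) < rows (Bm m e (t + 1)) := by
  have h1 := h t (by omega)
  have h2 := h (t + 1) ht
  have h3 : rows (Bm m e t) ≤ rows (Bm m e (t + 1)) :=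
    (F.inc _ _ h2.hnf).2 ⟨_, h1.link ht, h1.linkz ht⟩
  refine lt_of_le_of_ne h3 fun h4 => h1.strict ht (F.eqr _ _ h1.hnf h2.hnf h4)

theorem rows_lt (F : FinM n m s d A) (h : ∀ t < k, Blk n m d A k e t) {t : ℕ} :
    ∀ u, t < u → u < k → rows (Bm m e t) < rows (Bm m e u) := by
  intro u
  induction u with
  | zero => intro h1; omega
  | succ u ih =>
    intro h1 h2
    rcases Nat.lt_succ_iff_lt_or_eq.1 h1 with h3 | rfl
    · exact (ih h3 (by omega)).trans (rows_le_next F h h2)
    · exact rows_le_next F h h2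

theorem rows_le (F : FinM n m s d A) (h : ∀ t < k, Blk n m d A k e t) {t : ℕ} (ht : t < k) :
    rows (Bm m e t) ≤ rows A := by
  have h1 : rows (Bm m e (k - 1)) ≤ rows A := by
    have h2 := h (k - 1) (by omega)
    exact (F.ina _).2 ⟨_, h2.last (by omega)⟩
  rcases Nat.lt_or_ge t (k - 1) with h2 | h2
  · exact (rows_lt F h (k - 1) h2 (by omega)).le.trans h1
  · have : t = k - 1 := by omega
    rw [this]; exact h1

theorem PP_of_blk (F : FinM n m s d A) (h : ∀ t < k, Blk n m d A k e t) {t : ℕ} (ht : t < k) :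
    PP (rows A) d (Bm m e t) := by
  have h1 := h t ht
  refine ⟨h1.hnf, h1.ne, rows_le F h ht, ?_⟩
  rcases Nat.eq_zero_or_pos m with hm | hm
  · exfalso
    subst hm
    exact h1.ne (Matrix.ext fun i => i.elim0)
  · have h2 := h1.det ⟨m - 1, by omega⟩ (by simp only; omega)
    rw [F.detY _ h1.hnf _ h1.tri ⟨m - 1, by omega⟩ (by simp only; omega)] at h2
    exact h2

theorem lst_mem (F : FinM n m s d A) (h : ∀ t < k, Blk n m d A k e t) (hk : 0 < k) :
    lst m k e ∈ chL (rows A) d := by
  refine ⟨?_, ?_, ?_⟩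
  · intro h0
    have := congrArg List.length h0
    rw [length_lst] at this
    simp at this
    omega
  · intro B hB
    unfold lst at hB
    rw [List.mem_map] at hB
    obtain ⟨t, ht, rfl⟩ := hB
    exact PP_of_blk F h (List.mem_range.1 ht)
  · unfold lst
    rw [List.pairwise_map]
    refine (List.pairwise_lt_range (n := k)).imp_of_mem ?_
    intro i j _ hj hij
    exact rows_lt F h j hij (List.mem_range.1 hj)

/-- an accepted table is canonical -/
theorem eq_can (F : FinM n m s d A) (h : ∀ t < k, Blk n m d A k e t) {t : ℕ} (ht : t < k)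
    {r j : ℕ} (hr : r < 3 * m + 1) (hj : j < m) : e t r j = can A d (lst m k e) t r j := by
  have h1 := h t ht
  have hP := PP_of_blk F h ht
  have eB := getD_lst (m := m) (e := e) ht
  unfold can
  rw [eB]
  split_ifs with h3 h4 h5 h6
  · exact (nx_fin (Bm m e t) ⟨r, h3⟩ ⟨j, hj⟩).symm
  · obtain ⟨Y, hY, -⟩ := F.exY _ hP
    have eY : Yc (Bm m e t) = Ym m e t := F.unY _ hP.1 _ _ (Yc_spec ⟨Y, hY⟩) h1.tri
    rw [eY]
    have h6 := nx_fin (Ym m e t) ⟨r - m, by omega⟩ ⟨j, hj⟩
    simp only at h6
    rw [h6]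
    simp only [Ym, Matrix.of_apply]
    congr 1
    omega
  · rw [length_lst] at h6
    rw [getD_lst h6]
    have hP' := PP_of_blk F h h6
    have hX := Xc_spec ((F.inc _ _ hP'.1).1 (rows_le_next F h h6).le)
    have eX : Xc (Bm m e t) (Bm m e (t + 1)) = Xm m e t :=
      F.unX _ _ hP'.1 _ _ hX.1 hX.2 (h1.link h6) (h1.linkz h6)
    rw [eX]
    have h7 := nx_fin (Xm m e t) ⟨r - 2 * m, by omega⟩ ⟨j, hj⟩
    simp only at h7
    rw [h7]
    simp only [Xm, Matrix.of_apply]
    congr 1
    omega
  · rw [length_lst] at h6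
    have hk : t + 1 = k := by omega
    have eX : Xa A (Bm m e t) = Xn n m e t :=
      F.unA _ _ _ (Xa_spec ⟨_, h1.last hk⟩) (h1.last hk)
    rw [eX]
    have e1 : e t r j = e t (2 * m + (r - 2 * m)) j := by
      congr 1
      omega
    rcases Nat.lt_or_ge j n with h7 | h7
    · have h8 := nx_fin (Xn n m e t) ⟨r - 2 * m, by omega⟩ ⟨j, h7⟩
      simp only at h8
      rw [h8, e1]
      rfl
    · have h8 := h1.lastz hk (r - 2 * m) (by omega) j hj h7
      unfold nx
      rw [dif_neg (by omega), e1, h8]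
  · have h9 : r = 3 * m := by omega
    rw [h9]
    exact h1.pow j hj

/-- the conditions depend only on the cells of the table -/
theorem blk_congr (he : ∀ t < k, ∀ r < 3 * m + 1, ∀ j < m, e t r j = e' t r j) {t : ℕ}
    (ht : t < k) (h : Blk n m d A k e t) (hnm : n ≤ m) : Blk n m d A k e' t := by
  have eB : ∀ t < k, Bm m e' t = Bm m e t := fun t ht => by
    ext i j
    exact (he t ht i (by omega) j j.2).symm
  have eY : Ym m e' t = Ym m e t := by
    ext i j
    exact (he t ht (m + i) (by omega) j j.2).symm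
  have eX : Xm m e' t = Xm m e t := by
    ext i j
    exact (he t ht (2 * m + i) (by omega) j j.2).symm
  have eN : Xn n m e' t = Xn n m e t := by
    ext i j
    exact (he t ht (2 * m + i) (by omega) j (by omega)).symm
  constructor
  · rw [eB t ht]; exact h.hnf
  · rw [eB t ht]; exact h.ne
  · rw [eB t ht, eY]; exact h.tri
  · intro i hi
    rw [eB t ht, ← he t ht (3 * m) (by omega) i hi]
    exact h.pow i hi
  · rw [eB t ht, eY]; exact h.det
  · intro ht'
    rw [eB t ht, eX, eB _ ht']
    exact h.link ht'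
  · intro ht'
    rw [eX, eB _ ht']
    exact h.linkz ht'
  · intro ht'
    rw [eB t ht, eB _ ht']
    exact h.strict ht'
  · intro ht'
    rw [eB t ht, eN]
    exact h.last ht'
  · intro ht' i hi j hj hnj
    rw [← he t ht (2 * m + i) (by omega) j hj]
    exact h.lastz ht' i hi j hj hnj

end

end Pool.Agent.LAT.H33
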