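import Pool.Agent.Helper33_LAT.Asm

/-!
# Squad LAT: promise problems which can be reduced to GapSVP with factor sqrt n
-/

set_option autoImplicit false

namespace Pool.Agent.LAT.H33

open Pool.Agent.PAR Matrix

/-- Promise problems with a reduction to GapSVP with factor `sqrt n` are separated by a language in
parity-P. -/
theorem separated (wdc : WdcStmt) (prs : PrsStmt) (fnm : FnmStmt) (mch : MchStmt) (red : RedStmt)
    (Y N : Set Word) (f : Word → Word) (hf : PolyWord f)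
    (h : ∀ x ∈ Y ∪ N, ∃ (n m w : ℕ) (A : Matrix (Fin n) (Fin m) ℤ) (D : ℤ),
      IsInst n m w A D ∧ f x = enc n m w A D ∧ (x ∈ Y → Short A D) ∧
      (x ∈ N → ¬ Short A (n * D))) :
    ∃ K : Set Word, InParityP K ∧ (∀ x ∈ Y, x ∈ K) ∧ ∀ x ∈ N, x ∉ K := by
  obtain ⟨V, q, hV, hVq⟩ := promise wdc prs fnm mch
  refine ⟨{x | Odd (witnesses V q (f x)).ncard},
    red _ {x | Odd (witnesses V q x).ncard} f hf ⟨V, q, hV, fun x => Iff.rfl⟩ fun x => Iff.rfl,
    fun x hx => ?_, fun x hx hx' => ?_⟩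
  · obtain ⟨n, m, w, A, D, hI, e, h1, h2⟩ := h x (Or.inl hx)
    rw [Set.mem_ofPred_eq, e]
    exact (hVq n m w A D hI).1 (h1 hx)
  · obtain ⟨n, m, w, A, D, hI, e, h1, h2⟩ := h x (Or.inr hx)
    rw [Set.mem_ofPred_eq, e, (hVq n m w A D hI).2 (h2 hx), Set.ncard_empty] at hx'
    exact absurd hx' (by decide)

end Pool.Agent.LAT.H33
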