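import Pool.Agent.Helper33_LAT.Sg2
import Pool.Agent.Helper33_LAT.CRows
import Pool.Agent.Helper72_LAT.FinalS
import Pool.Agent.Helper58_LAT.FIBS

/-!
# Squad LAT: GapCVP is in SPP, assembly
-/

set_option autoImplicit false

namespace Pool.Agent.LAT.H33

open Pool.Agent.PAR Matrix

/-- the signed number of the certificates with a given marked element -/
theorem fibs_ : H72.FibSStmt := by
  intro n m d s A v B hB
  have h1 : 1 ≤ ph (4 * d) (rows B) := by
    rw [(H72.phs m (4 * d)).2.2.1, (H72.hnd m B hB.1).1, (H72.hnd m B hB.1).2]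
    exact hB.2.2
  exact H58.fibs H72.hne H72.hnu H72.hnd H72.pos n m d s A v B hB
    (H72.evwS H72.phs H72.phf m (4 * d) (rows B) h1).1
    (H72.evuS H72.phs H72.phf m (rows A) (4 * d) (rows B) hB.2.1 h1).1

theorem fns_ : FnsStmt := by
  intro n m s d A v _ hA hm hd hAe hv
  exact H72.csgF n m s d A v hA hm hd hAe hv

/-- Promise problems with a reduction to GapCVP with factor `sqrt (1 + n (n + 1) / 2)` are in
SPP. -/
theorem cvp_red_ (Y N : Set Word) (f : Word → Word) (hf : PolyWord f)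
    (h : ∀ x ∈ Y ∪ N, ∃ (n m w : ℕ) (A : Matrix (Fin n) (Fin m) ℤ) (v : Fin m → ℤ) (D : ℤ),
      IsCvp n m w A v D ∧ f x = encC n m w A v D ∧ (x ∈ Y → Close A v D) ∧
      (x ∈ N → ¬ Close A v ((1 + n * (n + 1) / 2 : ℕ) * D))) : InSPP Y N :=
  cvp_red fnc_ mcc_ fns_ Y N f hf h

end Pool.Agent.LAT.H33
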