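import Pool.Agent.Helper7_LAT.MCC

/-!
# Squad LAT: the sign of a certificate is decidable in polynomial time
-/

set_option autoImplicit false

namespace Pool.Agent.LAT.H33

open Turing Computability Pool.Agent.UT.Num Pool.Agent.H2XG Pool.Agent.PAR Pool.Agent.LAT
open Pool.Agent.LAT.H7 Pool.Agent.LATM

/-- the sign of a certificate of part 1: the number of the blocks is odd -/
def sg1 (z : Word × Word) : Bool := decide (Odd (z.2.length / bsz z.1))

/-- the sign of a certificate of part 2: the number of the blocks is odd -/
def sg2 (z : Word × Word) : Bool := decide (Odd (kC z.1 z.2))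

variable {m : ℕ}

theorem oddP {k : (Fin m → List K) → ℕ} (hk : FPN m k) : FPP m (fun ρ => Odd (k ρ)) := by
  refine FPP.congr (FPP.eqN hk (((FPN.const 2).mul (hk.div (FPN.const 2))).add (FPN.const 1)))
    fun ρ => ?_
  rw [Nat.odd_iff]
  omega

theorem sg1_poly : PolyPair sg1 := by
  have h : PolyPair (fun z => (fun x y => sg1 (x, y)) z.1 z.2) := by
    refine polyPair_of' (g := fun x y => sg1 (x, y)) fun m A B hA hB => ?_
    have hk : FPN m (fun ρ => (B ρ).length / bsz (A ρ)) := hB.len.div (bszN hA)
    exact FPP.decide' (oddP hk) fun ρ => by simp [sg1]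
  exact h

theorem sg2_poly : PolyPair sg2 := by
  have h : PolyPair (fun z => (fun x y => sg2 (x, y)) z.1 z.2) := by
    refine polyPair_of' (g := fun x y => sg2 (x, y)) fun m A B hA hB => ?_
    exact FPP.decide' (oddP (kCN hA hB)) fun ρ => by simp [sg2]
  exact h

end Pool.Agent.LAT.H33
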