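import Pool.Agent.Helper33_LAT.Spp
import Pool.Agent.Helper33_LAT.SgM
import Pool.Agent.Helper33_LAT.Rows
import Pool.Agent.Helper72_LAT.SGN

/-!
# Squad LAT: GapSVP with factor sqrt n is in SPP
-/

set_option autoImplicit false

namespace Pool.Agent.LAT.H33

open Pool.Agent.PAR Pool.Agent.PAR.H58 Matrix

noncomputable section

/-- the signed number of the chains -/
theorem sgn_chL {m : ℕ} (L : Submodule ℤ (Fin m → ℤ)) (D : ℕ)
    (h : ∃ w ∈ L, w ≠ 0 ∧ w ⬝ᵥ w ≤ (D : ℤ)) :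
    {l ∈ chL L D | Odd l.length}.ncard = {l ∈ chL L D | Even l.length}.ncard + 1 := by
  classical
  obtain ⟨w, hw, hw0, hwD⟩ := h
  obtain ⟨T, hT, hj⟩ := H72.con m L D ⟨_, H72.vec m L D w hw0 hw hwD⟩
  have hpp := H72.pp_iff H72.hnd L D
  choose g hg1 hg2 using H72.hne m
  have hinj : Set.InjOn (fun B : Matrix (Fin m) (Fin m) ℤ => rows B) {B | PP L D B} := by
    intro B hB B' hB' h
    exact H72.hnu m B B' hB.1 hB'.1 h
  have hPMfin : {M | PM L D M}.Finite := by
    refine Set.Finite.subset ((H72.pp_finite H72.bnd L D).image (fun B => rows B)) fun M hM => ?_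
    refine ⟨g M, ?_, hg2 M⟩
    exact (hpp (g M)).2 ⟨hg1 M, by rw [hg2]; exact hM⟩
  have hfin : (Chains {M | PM L D M} (· ≤ ·)).Finite := by
    rw [← H72.chains_eq]
    exact (H72.par _ {M | PM L D M} hPMfin T hT (fun x hx => hj x hx)).1
  have hs := H72.sgn_join (S := {M | PM L D M}) (r := (· ≤ ·)) hfin (fun u _ => le_refl u)
    (fun u _ v _ => le_antisymm) (fun u _ v _ w _ => le_trans) hT
    (fun y hy => ⟨y ⊔ T, hj y hy, le_sup_left, le_sup_right, fun w _ h1 h2 => sup_le h1 h2⟩)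
  have himg : ∀ p : ℕ → Prop,
      (fun l => List.map (fun B : Matrix (Fin m) (Fin m) ℤ => rows B) l) ''
        {l ∈ chL L D | p l.length} =
      {l | l ∈ Chains {M | PM L D M} (· ≤ ·) ∧ l ≠ [] ∧ p l.length} := by
    intro p
    rw [← H72.chains_eq]
    ext l
    simp only [Set.mem_image, Set.mem_ofPred_eq, chL]
    constructor
    · rintro ⟨l', ⟨⟨h1, h2, h3⟩, h4⟩, rfl⟩
      refine ⟨⟨?_, ?_⟩, by simpa using h1, by simpa using h4⟩
      · intro x hx
        obtain ⟨B, hB, rfl⟩ := List.mem_map.1 hx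
        exact ((hpp B).1 (h2 B hB)).2
      · rw [List.pairwise_map]
        exact h3
    · rintro ⟨⟨h2, h3⟩, h1, h4⟩
      refine ⟨l.map g, ⟨⟨by simpa using h1, ?_, ?_⟩, by simpa using h4⟩, ?_⟩
      · intro B hB
        obtain ⟨M, hM, rfl⟩ := List.mem_map.1 hB
        exact (hpp (g M)).2 ⟨hg1 M, by rw [hg2]; exact h2 M hM⟩
      · rw [List.pairwise_map]
        simpa only [hg2] using h3
      · rw [List.map_map]
        have : ((fun B : Matrix (Fin m) (Fin m) ℤ => rows B) ∘ g) = id := by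
          funext M
          exact hg2 M
        rw [this, List.map_id]
  have hinjL : Set.InjOn (fun l => List.map (fun B : Matrix (Fin m) (Fin m) ℤ => rows B) l)
      (chL L D) := by
    intro l₁ h1 l₂ h2 he
    exact H72.map_injOn hinj l₁ l₂ h1.2.1 h2.2.1 he
  have e1 : ∀ p : ℕ → Prop, {l ∈ chL L D | p l.length}.ncard =
      {l | l ∈ Chains {M | PM L D M} (· ≤ ·) ∧ l ≠ [] ∧ p l.length}.ncard := by
    intro p
    rw [← himg p, Set.InjOn.ncard_image (hinjL.mono fun l hl => hl.1)]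
  rw [e1, e1, ← hs]
  congr 1
  ext l
  constructor
  · rintro ⟨h1, -, h2⟩
    exact ⟨h1, h2⟩
  · rintro ⟨h1, h2⟩
    refine ⟨h1, ?_, h2⟩
    intro h0
    rw [h0, List.length_nil] at h2
    exact absurd h2 (by decide)

theorem sg1_wrd {n m : ℕ} {A : Matrix (Fin n) (Fin m) ℤ} {d : ℕ} {x : Word} (hpm : pm x = m)
    {l : List (Matrix (Fin m) (Fin m) ℤ)} (hl : l ∈ chL (rows A) d) :
    (wrd (wid x) A d l).length / bsz x = l.length := by
  obtain ⟨hm, hk⟩ := pos_of_mem hl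
  have hb : bsz x = (3 * m + 1) * m * (wid x + 1) := by
    unfold bsz
    rw [hpm]
  have hb0 : 0 < bsz x := by
    rw [hb]
    positivity
  have h1 : (wrd (wid x) A d l).length = l.length * bsz x := by
    unfold wrd
    rw [(wdc_ _ _).1, hb]
    ring
  rw [h1, Nat.mul_div_cancel _ hb0]

/-- the signed number of the witnesses -/
theorem gapS (n m w : ℕ) (A : Matrix (Fin n) (Fin m) ℤ) (D : ℤ) (hI : IsInst n m w A D) :
    (Short A D → {y ∈ witnesses Vb ((Polynomial.X + 2) ^ 22) (enc n m w A D) |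
        sg1 (enc n m w A D, y) = true}.ncard =
      {y ∈ witnesses Vb ((Polynomial.X + 2) ^ 22) (enc n m w A D) |
        sg1 (enc n m w A D, y) = false}.ncard + 1) ∧
    (¬ Short A (n * D) → witnesses Vb ((Polynomial.X + 2) ^ 22) (enc n m w A D) = ∅) := by
  refine ⟨?_, (gap wdc_ prs_ fnm_ n m w A D hI).2⟩
  rintro ⟨c, hc, hc2⟩
  obtain ⟨h1, h2, h3, h4, h5, h6⟩ := prs_ n m w A D hI
  generalize hx : enc n m w A D = x at *
  obtain ⟨d, rfl⟩ := Int.eq_ofNat_of_zero_le hI.nonneg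
  obtain ⟨g1, g2⟩ := len_enc_ge h6
  have hd : d < 2 ^ w := by exact_mod_cast hI.bound
  have hw : 2 ^ w ≤ 2 ^ x.length := Nat.pow_le_pow_right (by norm_num) g2
  have F : FinM n m x.length d A := by
    refine fnm_ n m x.length d A hI.indep g1 (lt_of_lt_of_le hd hw) fun i j => ?_
    refine lt_of_lt_of_le (hI.entries i j) ?_
    exact_mod_cast hw
  have hq : ∀ l ∈ chL (rows A) d, (wrd (wid x) A d l).length ≤
      ((Polynomial.X + 2) ^ 22 : Polynomial ℕ).eval x.length := by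
    intro l hl
    unfold wrd
    rw [(wdc_ _ _).1]
    have h7 := bound_q g1 (F.len l hl)
    simp only [Polynomial.eval_pow, Polynomial.eval_add, Polynomial.eval_X,
      Polynomial.eval_ofNat]
    exact h7
  have e := wit_eq wdc_ F h1 h2 h5 h4 _ hq
  have hinj := wrd_inj wdc_ F h2
  have e1 : {y ∈ witnesses Vb ((Polynomial.X + 2) ^ 22) x | sg1 (x, y) = true} =
      wrd (wid x) A d '' {l ∈ chL (rows A) d | Odd l.length} := by
    rw [e]
    ext y
    constructor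
    · rintro ⟨⟨l, hl, rfl⟩, hy⟩
      refine ⟨l, ⟨hl, ?_⟩, rfl⟩
      have hy' : Odd ((wrd (wid x) A d l).length / bsz x) := by simpa [sg1] using hy
      rwa [sg1_wrd h2 hl] at hy'
    · rintro ⟨l, ⟨hl, ho⟩, rfl⟩
      refine ⟨⟨l, hl, rfl⟩, ?_⟩
      have : Odd ((wrd (wid x) A d l).length / bsz x) := by rwa [sg1_wrd h2 hl]
      simpa [sg1] using this
  have e2 : {y ∈ witnesses Vb ((Polynomial.X + 2) ^ 22) x | sg1 (x, y) = false} =
      wrd (wid x) A d '' {l ∈ chL (rows A) d | Even l.length} := by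
    rw [e]
    ext y
    constructor
    · rintro ⟨⟨l, hl, rfl⟩, hy⟩
      refine ⟨l, ⟨hl, ?_⟩, rfl⟩
      have hy' : ¬ Odd ((wrd (wid x) A d l).length / bsz x) := by simpa [sg1] using hy
      rwa [sg1_wrd h2 hl, Nat.not_odd_iff_even] at hy'
    · rintro ⟨l, ⟨hl, ho⟩, rfl⟩
      refine ⟨⟨l, hl, rfl⟩, ?_⟩
      have : ¬ Odd ((wrd (wid x) A d l).length / bsz x) := by
        rwa [sg1_wrd h2 hl, Nat.not_odd_iff_even]
      simpa [sg1] using this
  rw [e1, e2, Set.InjOn.ncard_image (hinj.mono fun l hl => hl.1),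
    Set.InjOn.ncard_image (hinj.mono fun l hl => hl.1)]
  exact sgn_chL _ _ ⟨c ᵥ* A, (H72.mem_rows A _).2 ⟨c, rfl⟩, H72.vecMul_ne_zero A hI.indep c hc, hc2⟩

/-- GapSVP with factor `sqrt n` is in SPP. -/
theorem svp_spp : InSPP
    {x | ∃ (n m w : ℕ) (A : Matrix (Fin n) (Fin m) ℤ) (D : ℤ), IsInst n m w A D ∧
      x = enc n m w A D ∧ Short A D}
    {x | ∃ (n m w : ℕ) (A : Matrix (Fin n) (Fin m) ℤ) (D : ℤ), IsInst n m w A D ∧
      x = enc n m w A D ∧ ¬ Short A (n * D)} := by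
  refine ⟨Vb, sg1, (Polynomial.X + 2) ^ 22, mch_, sg1_poly, ?_, ?_⟩
  · rintro x ⟨n, m, w, A, D, hI, rfl, h⟩
    exact (gapS n m w A D hI).1 h
  · rintro x ⟨n, m, w, A, D, hI, rfl, h⟩
    have h1 := (gapS n m w A D hI).2 h
    have h2 : ∀ b : Bool, {y ∈ witnesses Vb ((Polynomial.X + 2) ^ 22) (enc n m w A D) |
        sg1 (enc n m w A D, y) = b} = ∅ := by
      intro b
      rw [h1]
      ext y
      constructor
      · rintro ⟨hy, -⟩
        exact hy
      · intro hy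
        exact absurd hy (Set.notMem_empty y)
    rw [h2, h2]

/-- Promise problems with a reduction to GapSVP with factor `sqrt n` are in SPP. -/
theorem svp_red (Y N : Set Word) (f : Word → Word) (hf : PolyWord f)
    (h : ∀ x ∈ Y ∪ N, ∃ (n m w : ℕ) (A : Matrix (Fin n) (Fin m) ℤ) (D : ℤ),
      IsInst n m w A D ∧ f x = enc n m w A D ∧ (x ∈ Y → Short A D) ∧
      (x ∈ N → ¬ Short A (n * D))) : InSPP Y N := by
  refine spp_red f hf (fun x hx => ?_) (fun x hx => ?_) svp_spp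
  · obtain ⟨n, m, w, A, D, hI, e, h1, -⟩ := h x (Or.inl hx)
    exact ⟨n, m, w, A, D, hI, e, h1 hx⟩
  · obtain ⟨n, m, w, A, D, hI, e, -, h1⟩ := h x (Or.inr hx)
    exact ⟨n, m, w, A, D, hI, e, h1 hx⟩

end

end Pool.Agent.LAT.H33
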