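import Pool.Agent.Helper33_LAT.CAsm
import Pool.Agent.Helper33_LAT.Sg1

/-!
# Squad LAT: GapCVP with factor sqrt (1 + n (n + 1) / 2) is in SPP
-/

set_option autoImplicit false

namespace Pool.Agent.LAT.H33

open Pool.Agent.PAR Matrix

noncomputable section

/-- The signed number of the certificates. -/
def FnsStmt : Prop := ∀ (n m s d : ℕ) (A : Matrix (Fin n) (Fin m) ℤ) (v : Fin m → ℤ), 0 < m →
  LinearIndependent ℤ (fun i => A i) → m ≤ s → 4 * d < 2 ^ s → (∀ i j, |A i j| < 2 ^ s) →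
  (∀ j, |v j| < 2 ^ s) →
  ((∃ c : Fin n → ℤ, (v - c ᵥ* A) ⬝ᵥ (v - c ᵥ* A) ≤ (d : ℤ)) →
    {p ∈ CS A v d s | Odd p.1.length}.ncard = {p ∈ CS A v d s | Even p.1.length}.ncard + 1) ∧
  ((∀ c : Fin n → ℤ, ((1 + n * (n + 1) / 2 : ℕ) : ℤ) * d < (v - c ᵥ* A) ⬝ᵥ (v - c ᵥ* A)) →
    {p ∈ CS A v d s | Odd p.1.length}.ncard = {p ∈ CS A v d s | Even p.1.length}.ncard)

theorem sg2_wrd {n m : ℕ} {A : Matrix (Fin n) (Fin m) ℤ} {d : ℕ} {x : Word} (hm : 0 < m)
    (hpm : pm x = m)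
    (p : List (Matrix (Fin m) (Fin m) ℤ) × ℕ × (Fin m → ℤ) × (Fin n → ℤ) × (Fin m → ℤ)) :
    kC x (wrdC (wid x) A (4 * (d : ℤ)) p) = p.1.length := by
  have h1 : (wrdC (wid x) A (4 * (d : ℤ)) p).length =
      (p.1.length * (3 * m + 1) + 4) * (m * (wid x + 1)) := by
    unfold wrdC
    rw [(wdc_ _ _).1]
    ring
  exact kC_eq hm hpm h1

/-- the signed number of the witnesses -/
theorem gapT (fnc : FncStmt) (fns : FnsStmt) (n m w : ℕ)
    (A : Matrix (Fin n) (Fin m) ℤ) (v : Fin m → ℤ) (D : ℤ) (hI : IsCvp n m w A v D) :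
    (Close A v D → {y ∈ witnesses VbC ((Polynomial.X + 2) ^ 24) (encC n m w A v D) |
        sg2 (encC n m w A v D, y) = true}.ncard =
      {y ∈ witnesses VbC ((Polynomial.X + 2) ^ 24) (encC n m w A v D) |
        sg2 (encC n m w A v D, y) = false}.ncard + 1) ∧
    (¬ Close A v ((1 + n * (n + 1) / 2 : ℕ) * D) →
      {y ∈ witnesses VbC ((Polynomial.X + 2) ^ 24) (encC n m w A v D) |
        sg2 (encC n m w A v D, y) = true}.ncard =
      {y ∈ witnesses VbC ((Polynomial.X + 2) ^ 24) (encC n m w A v D) |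
        sg2 (encC n m w A v D, y) = false}.ncard) := by
  have hr := prsG wda_ (n + 1) m w (addRow A v) D (addRow_lt hI.entries hI.target) hI.nonneg
    hI.bound
  unfold encC
  obtain ⟨h1, h2, h3, h4, h5, h6⟩ := hr
  generalize hx : enc (n + 1) m w (addRow A v) D = x at *
  obtain ⟨d, rfl⟩ := Int.eq_ofNat_of_zero_le hI.nonneg
  have g1 : m ≤ x.length := by omega
  have g2 : w + 2 ≤ x.length := by omega
  have hd : d < 2 ^ w := by exact_mod_cast hI.bound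
  have hd4 : 4 * d < 2 ^ (w + 2) := by
    rw [pow_add]
    omega
  have hw : 2 ^ w ≤ 2 ^ x.length := Nat.pow_le_pow_right (by norm_num) (by omega)
  have hw2 : 2 ^ (w + 2) ≤ 2 ^ x.length := Nat.pow_le_pow_right (by norm_num) g2
  have hw' : (2 : ℤ) ^ w ≤ 2 ^ x.length := by exact_mod_cast hw
  have F : FinC n m x.length d A v :=
    fnc n m x.length d A v hI.dim hI.indep g1 (lt_of_lt_of_le hd4 hw2)
      (fun i j => lt_of_lt_of_le (hI.entries i j) hw')
      (fun j => lt_of_lt_of_le (hI.target j) hw')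
  have FS := fns n m x.length d A v hI.dim hI.indep g1 (lt_of_lt_of_le hd4 hw2)
      (fun i j => lt_of_lt_of_le (hI.entries i j) hw')
      (fun j => lt_of_lt_of_le (hI.target j) hw')
  have hpa : ∀ (i : Fin n) (j : Fin m), pa x i j = A i j := by
    intro i j
    rw [← addRow_lo A v i j, ← h4 i.castSucc j]
    rfl
  have hpv : ∀ j : Fin m, pa x n j = v j := by
    intro j
    rw [← addRow_hi A v j, ← h4 (Fin.last n) j]
    rfl
  have hq : ∀ p ∈ CS A v d x.length, (wrdC (wid x) A (4 * (d : ℤ)) p).length ≤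
      ((Polynomial.X + 2) ^ 24 : Polynomial ℕ).eval x.length := by
    intro p hp
    unfold wrdC
    rw [(wdc_ _ _).1]
    have h7 := bound_qC g1 (F.len p hp)
    simp only [Polynomial.eval_pow, Polynomial.eval_add, Polynomial.eval_X,
      Polynomial.eval_ofNat]
    exact h7
  have e := witC_eq wdc_ F hI.dim h1 h2 h5 hpa hpv _ hq
  have hinj := wrdC_inj wdc_ F hI.dim h2
  have hk := sg2_wrd (A := A) (d := d) hI.dim h2
  have e1 : {y ∈ witnesses VbC ((Polynomial.X + 2) ^ 24) x | sg2 (x, y) = true} =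
      wrdC (wid x) A (4 * (d : ℤ)) '' {p ∈ CS A v d x.length | Odd p.1.length} := by
    rw [e]
    ext y
    constructor
    · rintro ⟨⟨p, hp, rfl⟩, hy⟩
      refine ⟨p, ⟨hp, ?_⟩, rfl⟩
      have hy' : Odd (kC x (wrdC (wid x) A (4 * (d : ℤ)) p)) := by simpa [sg2] using hy
      rwa [hk p] at hy'
    · rintro ⟨p, ⟨hp, ho⟩, rfl⟩
      refine ⟨⟨p, hp, rfl⟩, ?_⟩
      have : Odd (kC x (wrdC (wid x) A (4 * (d : ℤ)) p)) := by rwa [hk p]
      simpa [sg2] using this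
  have e2 : {y ∈ witnesses VbC ((Polynomial.X + 2) ^ 24) x | sg2 (x, y) = false} =
      wrdC (wid x) A (4 * (d : ℤ)) '' {p ∈ CS A v d x.length | Even p.1.length} := by
    rw [e]
    ext y
    constructor
    · rintro ⟨⟨p, hp, rfl⟩, hy⟩
      refine ⟨p, ⟨hp, ?_⟩, rfl⟩
      have hy' : ¬ Odd (kC x (wrdC (wid x) A (4 * (d : ℤ)) p)) := by simpa [sg2] using hy
      rwa [hk p, Nat.not_odd_iff_even] at hy'
    · rintro ⟨p, ⟨hp, ho⟩, rfl⟩
      refine ⟨⟨p, hp, rfl⟩, ?_⟩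
      have : ¬ Odd (kC x (wrdC (wid x) A (4 * (d : ℤ)) p)) := by
        rwa [hk p, Nat.not_odd_iff_even]
      simpa [sg2] using this
  rw [e1, e2, Set.InjOn.ncard_image (hinj.mono fun l hl => hl.1),
    Set.InjOn.ncard_image (hinj.mono fun l hl => hl.1)]
  constructor
  · rintro ⟨c, hc⟩
    exact FS.1 ⟨c, hc⟩
  · intro h
    refine FS.2 fun c => ?_
    by_contra h9
    exact h ⟨c, not_lt.1 h9⟩

/-- GapCVP with factor `sqrt (1 + n (n + 1) / 2)` is in SPP. -/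
theorem cvp_spp (fnc : FncStmt) (mcc : MccStmt) (fns : FnsStmt) : InSPP
    {x | ∃ (n m w : ℕ) (A : Matrix (Fin n) (Fin m) ℤ) (v : Fin m → ℤ) (D : ℤ),
      IsCvp n m w A v D ∧ x = encC n m w A v D ∧ Close A v D}
    {x | ∃ (n m w : ℕ) (A : Matrix (Fin n) (Fin m) ℤ) (v : Fin m → ℤ) (D : ℤ),
      IsCvp n m w A v D ∧ x = encC n m w A v D ∧
      ¬ Close A v ((1 + n * (n + 1) / 2 : ℕ) * D)} := by
  refine ⟨VbC, sg2, (Polynomial.X + 2) ^ 24, mcc, sg2_poly, ?_, ?_⟩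
  · rintro x ⟨n, m, w, A, v, D, hI, rfl, h⟩
    exact (gapT fnc fns n m w A v D hI).1 h
  · rintro x ⟨n, m, w, A, v, D, hI, rfl, h⟩
    exact (gapT fnc fns n m w A v D hI).2 h

/-- Promise problems with a reduction to GapCVP are in SPP. -/
theorem cvp_red (fnc : FncStmt) (mcc : MccStmt) (fns : FnsStmt)
    (Y N : Set Word) (f : Word → Word) (hf : PolyWord f)
    (h : ∀ x ∈ Y ∪ N, ∃ (n m w : ℕ) (A : Matrix (Fin n) (Fin m) ℤ) (v : Fin m → ℤ) (D : ℤ),
      IsCvp n m w A v D ∧ f x = encC n m w A v D ∧ (x ∈ Y → Close A v D) ∧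
      (x ∈ N → ¬ Close A v ((1 + n * (n + 1) / 2 : ℕ) * D))) : InSPP Y N := by
  refine spp_red f hf (fun x hx => ?_) (fun x hx => ?_) (cvp_spp fnc mcc fns)
  · obtain ⟨n, m, w, A, v, D, hI, e, h1, -⟩ := h x (Or.inl hx)
    exact ⟨n, m, w, A, v, D, hI, e, h1 hx⟩
  · obtain ⟨n, m, w, A, v, D, hI, e, -, h1⟩ := h x (Or.inr hx)
    exact ⟨n, m, w, A, v, D, hI, e, h1 hx⟩

end

end Pool.Agent.LAT.H33
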