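import Pool.Agent.LAT.DefsS
import Pool.Agent.Helper62_LAT.RED

/-!
# SPP for promise problems: consequences and reductions
-/

set_option autoImplicit false

namespace Pool.Agent.LAT.H33

open Turing Computability Pool.Agent.UT.Num Pool.Agent.H2XG Pool.Agent.PAR
open Pool.Agent.Helper53_CookLevin (size)

theorem witnesses_finite (V : Word × Word → Bool) (q : Polynomial ℕ) (x : Word) :
    (witnesses V q x).Finite :=
  (List.finite_length_le Bool (q.eval x.length)).subset fun _ hy => hy.1

theorem ncard_witnesses (V σ : Word × Word → Bool) (q : Polynomial ℕ) (x : Word) :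
    (witnesses V q x).ncard = {y ∈ witnesses V q x | σ (x, y) = true}.ncard +
      {y ∈ witnesses V q x | σ (x, y) = false}.ncard := by
  have hf := witnesses_finite V q x
  have e : witnesses V q x = {y ∈ witnesses V q x | σ (x, y) = true} ∪
      {y ∈ witnesses V q x | σ (x, y) = false} := by
    ext y
    constructor
    · intro hy
      rcases h : σ (x, y) with _ | _
      · exact Or.inr ⟨hy, h⟩
      · exact Or.inl ⟨hy, h⟩
    · rintro (h | h)
      · exact h.1
      · exact h.1
  conv_lhs => rw [e]
  refine Set.ncard_union_eq ?_ (hf.subset fun y hy => hy.1) (hf.subset fun y hy => hy.1)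
  rw [Set.disjoint_left]
  rintro y ⟨-, h1⟩ ⟨-, h2⟩
  rw [h1] at h2
  exact absurd h2 (by decide)

/-- A promise problem in SPP is separated by a language in parity-P. -/
theorem parity_of_spp {Y N : Set Word} (h : InSPP Y N) :
    ∃ K : Set Word, InParityP K ∧ (∀ x ∈ Y, x ∈ K) ∧ ∀ x ∈ N, x ∉ K := by
  obtain ⟨V, σ, q, hV, -, hY, hN⟩ := h
  refine ⟨{x | Odd (witnesses V q x).ncard}, ⟨V, q, hV, fun x => Iff.rfl⟩, fun x hx => ?_,
    fun x hx hx' => ?_⟩
  · show Odd (witnesses V q x).ncard
    rw [ncard_witnesses V σ q x, hY x hx]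
    exact ⟨_, by ring⟩
  · have h1 : Odd (witnesses V q x).ncard := hx'
    rw [ncard_witnesses V σ q x, hN x hx] at h1
    exact absurd (Even.add_self _) (Nat.not_even_iff_odd.2 h1)

/-- The class is closed under polynomial-time many-one reductions. -/
theorem spp_red {Y₀ N₀ Y N : Set Word} (f : Word → Word) (hf : PolyWord f)
    (hY : ∀ x ∈ Y, f x ∈ Y₀) (hN : ∀ x ∈ N, f x ∈ N₀) (h : InSPP Y₀ N₀) : InSPP Y N := by
  obtain ⟨V, σ, q, hV, hσ, h1, h2⟩ := h
  obtain ⟨b, hb⟩ := FP.bound (m := 1) (FP.call (H62.pt_word hf) (FP.var 0))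
  have hb' : ∀ x : Word, (f x).length ≤ b.eval x.length := by
    intro x
    have h1 := hb ![x.map K.a]
    have h2 : size ![x.map K.a] = x.length := by
      unfold size
      simp
    rw [h2] at h1
    simpa [H62.gb_map] using h1
  let g : Word → Word → Bool := fun x y => V (f x, y) && decide (y.length ≤ q.eval (f x).length)
  have hg : PolyPair (fun z => g z.1 z.2) := by
    refine polyPair_of' fun m A B hA hB => ?_
    exact (FPB.call2 hV (H62.fpw_call hf hA) hB).and
      (FPB.leN hB.len ((H62.fpw_call hf hA).len.poly q))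
  let τ : Word → Word → Bool := fun x y => σ (f x, y)
  have hτ : PolyPair (fun z => τ z.1 z.2) := by
    refine polyPair_of' fun m A B hA hB => ?_
    exact FPB.call2 hσ (H62.fpw_call hf hA) hB
  have key : ∀ x, witnesses (fun z => g z.1 z.2) (q.comp b) x = witnesses V q (f x) := by
    intro x
    ext y
    constructor
    · rintro ⟨_, h2⟩
      simp only [g, Bool.and_eq_true, decide_eq_true_eq] at h2
      exact ⟨h2.2, h2.1⟩
    · rintro ⟨h1, h2⟩
      refine ⟨?_, ?_⟩
      · rw [Polynomial.eval_comp]
        exact h1.trans (H62.poly_mono q (hb' x))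
      · simp only [g, Bool.and_eq_true, decide_eq_true_eq]
        exact ⟨h2, h1⟩
  refine ⟨fun z => g z.1 z.2, fun z => τ z.1 z.2, q.comp b, hg, hτ, fun x hx => ?_, fun x hx => ?_⟩
  · rw [key]
    exact h1 _ (hY x hx)
  · rw [key]
    exact h2 _ (hN x hx)

end Pool.Agent.LAT.H33
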